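import Mathlib

/-
Closure properties of Diophantine conditions over a field with one parameter.
-/

namespace Pool.Agent.MP_28f2cb_lc.H94

variable {K : Type*} [Field K]

/-- polynomial functions with integer coefficients and the parameter `t`. -/
def PF (t : K) (σ : Type) : Subring ((σ → K) → K) :=
  Subring.closure ({fun _ => t} ∪ Set.range fun i v => v i)

section
variable {t : K} {σ τ : Type}

theorem PF.par : (fun _ => t) ∈ PF t σ := Subring.subset_closure (Or.inl rfl)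

theorem PF.var (i : σ) : (fun v => v i) ∈ PF t σ := Subring.subset_closure (Or.inr ⟨i, rfl⟩)

theorem PF.zero : (fun _ => 0) ∈ PF t σ := (PF t σ).zero_mem

theorem PF.add {f g : (σ → K) → K} (hf : f ∈ PF t σ) (hg : g ∈ PF t σ) :
    (fun v => f v + g v) ∈ PF t σ := add_mem hf hg

theorem PF.sub {f g : (σ → K) → K} (hf : f ∈ PF t σ) (hg : g ∈ PF t σ) :
    (fun v => f v - g v) ∈ PF t σ := sub_mem hf hg

theorem PF.mul {f g : (σ → K) → K} (hf : f ∈ PF t σ) (hg : g ∈ PF t σ) :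
    (fun v => f v * g v) ∈ PF t σ := mul_mem hf hg

theorem PF.pow {f : (σ → K) → K} (hf : f ∈ PF t σ) (n : ℕ) :
    (fun v => f v ^ n) ∈ PF t σ := pow_mem hf n

theorem PF.sum {ι : Type*} (s : Finset ι) {f : ι → (σ → K) → K} (hf : ∀ i ∈ s, f i ∈ PF t σ) :
    (fun v => ∑ i ∈ s, f i v) ∈ PF t σ := by
  have := sum_mem hf
  convert this using 1
  funext v
  simp

theorem PF.comp {φ : (σ → K) → K} (h : φ ∈ PF t σ) {f : σ → (τ → K) → K}
    (hf : ∀ i, f i ∈ PF t τ) : (fun v => φ fun i => f i v) ∈ PF t τ := by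
  induction h using Subring.closure_induction with
  | mem x hx =>
    rcases hx with rfl | ⟨i, rfl⟩
    · exact PF.par
    · exact hf i
  | zero => exact zero_mem _
  | one => exact one_mem _
  | add x y _ _ hx hy => exact add_mem hx hy
  | neg x _ hx => exact neg_mem hx
  | mul x y _ _ hx hy => exact mul_mem hx hy

theorem PF.poly {φ : (σ → K) → K} (h : φ ∈ PF t σ) {ρ : Type} (i0 : ρ) (e : σ → ρ) :
    ∃ P : MvPolynomial ρ ℤ, ∀ w : ρ → K, w i0 = t →
      MvPolynomial.aeval w P = φ fun i => w (e i) := by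
  induction h using Subring.closure_induction with
  | mem x hx =>
    rcases hx with rfl | ⟨i, rfl⟩
    · exact ⟨MvPolynomial.X i0, fun w hw => by simpa using hw⟩
    · exact ⟨MvPolynomial.X (e i), fun w _ => by simp⟩
  | zero => exact ⟨0, fun w _ => by simp⟩
  | one => exact ⟨1, fun w _ => by simp⟩
  | add x y _ _ hx hy =>
    obtain ⟨P, hP⟩ := hx
    obtain ⟨Q, hQ⟩ := hy
    exact ⟨P + Q, fun w hw => by rw [map_add, hP w hw, hQ w hw]; rfl⟩
  | neg x _ hx =>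
    obtain ⟨P, hP⟩ := hx
    exact ⟨-P, fun w hw => by rw [map_neg, hP w hw]; rfl⟩
  | mul x y _ _ hx hy =>
    obtain ⟨P, hP⟩ := hx
    obtain ⟨Q, hQ⟩ := hy
    exact ⟨P * Q, fun w hw => by rw [map_mul, hP w hw, hQ w hw]; rfl⟩

end

/-- Diophantine conditions with the parameter `t`. -/
def Dp (t : K) (α : Type) (S : (α → K) → Prop) : Prop :=
  ∃ (β : Type) (_ : Finite β) (φ : (α ⊕ β → K) → K), φ ∈ PF t (α ⊕ β) ∧
    ∀ x, S x ↔ ∃ y : β → K, φ (Sum.elim x y) = 0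

section
variable {t : K} {α γ : Type}

theorem Dp.congr {S S' : (α → K) → Prop} (h : Dp t α S) (e : ∀ x, S' x ↔ S x) : Dp t α S' := by
  obtain ⟨β, hβ, φ, hφ, h⟩ := h
  exact ⟨β, hβ, φ, hφ, fun x => (e x).trans (h x)⟩

theorem Dp.eq {f g : (α → K) → K} (hf : f ∈ PF t α) (hg : g ∈ PF t α) :
    Dp t α fun x => f x = g x :=
  ⟨Empty, inferInstance, fun v => f (fun i => v (.inl i)) - g fun i => v (.inl i),
    PF.sub (PF.comp hf fun _ => PF.var _) (PF.comp hg fun _ => PF.var _), fun _ =>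
      ⟨fun h => ⟨Empty.elim, sub_eq_zero.2 h⟩, fun ⟨_, h⟩ => sub_eq_zero.1 h⟩⟩

theorem Dp.comp {S : (γ → K) → Prop} (h : Dp t γ S) {f : γ → (α → K) → K}
    (hf : ∀ i, f i ∈ PF t α) : Dp t α fun x => S fun i => f i x := by
  obtain ⟨β, hβ, φ, hφ, h⟩ := h
  refine ⟨β, hβ, fun v => φ fun i => Sum.elim (fun c (w : α ⊕ β → K) => f c fun a => w (.inl a))
    (fun b w => w (.inr b)) i v, PF.comp hφ ?_, fun x => (h _).trans (exists_congr fun y => ?_)⟩
  · rintro (c | b)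
    · exact PF.comp (hf c) fun _ => PF.var _
    · exact PF.var _
  · refine iff_of_eq (congrArg (fun z => φ z = 0) ?_)
    funext i
    cases i <;> rfl

theorem Dp.ex [Finite γ] {S : (α ⊕ γ → K) → Prop} (h : Dp t (α ⊕ γ) S) :
    Dp t α fun x => ∃ z : γ → K, S (Sum.elim x z) := by
  obtain ⟨β, hβ, φ, hφ, h⟩ := h
  refine ⟨γ ⊕ β, inferInstance, fun v => φ fun i => v (Equiv.sumAssoc α γ β i),
    PF.comp hφ fun _ => PF.var _, fun x => ⟨?_, ?_⟩⟩
  · rintro ⟨z, hz⟩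
    obtain ⟨y, hy⟩ := (h _).1 hz
    refine ⟨Sum.elim z y, Eq.trans (congrArg φ ?_) hy⟩
    funext i
    rcases i with (i | i) | i <;> rfl
  · rintro ⟨y, hy⟩
    refine ⟨fun c => y (.inl c), (h _).2 ⟨fun b => y (.inr b), Eq.trans (congrArg φ ?_) hy⟩⟩
    funext i
    rcases i with (i | i) | i <;> rfl

theorem Dp.and {q : ℕ} (hq : ∀ a b : K, a ^ q - t * b ^ q = 0 ↔ a = 0 ∧ b = 0)
    {S S' : (α → K) → Prop} (h : Dp t α S) (h' : Dp t α S') : Dp t α fun x => S x ∧ S' x := by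
  obtain ⟨β, hβ, φ, hφ, h⟩ := h
  obtain ⟨β', hβ', φ', hφ', h'⟩ := h'
  refine ⟨β ⊕ β', inferInstance, fun v => (φ fun i => v (Sum.map id .inl i)) ^ q -
      t * (φ' fun i => v (Sum.map id .inr i)) ^ q,
    PF.sub (PF.pow (PF.comp hφ fun _ => PF.var _) q)
      (PF.mul PF.par (PF.pow (PF.comp hφ' fun _ => PF.var _) q)), fun x => ?_⟩
  simp only [hq, h, h']
  constructor
  · rintro ⟨⟨y, hy⟩, y', hy'⟩
    refine ⟨Sum.elim y y', Eq.trans (congrArg φ ?_) hy, Eq.trans (congrArg φ' ?_) hy'⟩ <;>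
    · funext i
      cases i <;> rfl
  · rintro ⟨y, hy, hy'⟩
    refine ⟨⟨fun b => y (.inl b), Eq.trans (congrArg φ ?_) hy⟩,
      fun b => y (.inr b), Eq.trans (congrArg φ' ?_) hy'⟩ <;>
    · funext i
      cases i <;> rfl

theorem Dp.all {q : ℕ} (hq : ∀ a b : K, a ^ q - t * b ^ q = 0 ↔ a = 0 ∧ b = 0) {ι : Type*}
    (s : Finset ι) {S : ι → (α → K) → Prop} (h : ∀ i, Dp t α (S i)) :
    Dp t α fun x => ∀ i ∈ s, S i x := by
  classical
  induction s using Finset.induction_on with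
  | empty => exact (Dp.eq PF.zero PF.zero).congr fun x => by simp
  | insert a s _ ih => exact (Dp.and hq (h a) ih).congr fun x => by simp

theorem PF.repar {s : K} {σ : Type} {φ : (σ → K) → K} (h : φ ∈ PF s σ) (t : K) :
    ∃ ψ ∈ PF t (σ ⊕ Unit), ∀ v, ψ (Sum.elim v fun _ => s) = φ v := by
  induction h using Subring.closure_induction with
  | mem x hx =>
    rcases hx with rfl | ⟨i, rfl⟩
    · exact ⟨_, PF.var (.inr ()), fun _ => rfl⟩
    · exact ⟨_, PF.var (.inl i), fun _ => rfl⟩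
  | zero => exact ⟨0, zero_mem _, fun _ => rfl⟩
  | one => exact ⟨1, one_mem _, fun _ => rfl⟩
  | add x y _ _ hx hy =>
    obtain ⟨P, hP, h1⟩ := hx
    obtain ⟨Q, hQ, h2⟩ := hy
    exact ⟨P + Q, add_mem hP hQ, fun v => by rw [Pi.add_apply, h1, h2]; rfl⟩
  | neg x _ hx =>
    obtain ⟨P, hP, h1⟩ := hx
    exact ⟨-P, neg_mem hP, fun v => by rw [Pi.neg_apply, h1]; rfl⟩
  | mul x y _ _ hx hy =>
    obtain ⟨P, hP, h1⟩ := hx
    obtain ⟨Q, hQ, h2⟩ := hy
    exact ⟨P * Q, mul_mem hP hQ, fun v => by rw [Pi.mul_apply, h1, h2]; rfl⟩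

theorem Dp.repar {q : ℕ} (hq : ∀ a b : K, a ^ q - t * b ^ q = 0 ↔ a = 0 ∧ b = 0) {s : K} {m : ℕ}
    (hs : ∀ z : K, z ^ m = t ↔ z = s) {S : (α → K) → Prop} (h : Dp s α S) : Dp t α S := by
  obtain ⟨β, hβ, φ, hφ, h⟩ := h
  obtain ⟨ψ, hψ, h1⟩ := PF.repar hφ t
  have h2 : Dp t (α ⊕ (β ⊕ Unit)) fun w => w (.inr (.inr ())) ^ m = t ∧
      (ψ fun i => w (Equiv.sumAssoc α β Unit i)) = 0 :=
    Dp.and hq (Dp.eq (PF.pow (PF.var _) m) PF.par)
      (Dp.eq (PF.comp hψ fun _ => PF.var _) PF.zero)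
  refine h2.ex.congr fun x => (h x).trans ⟨?_, ?_⟩
  · rintro ⟨y, hy⟩
    refine ⟨Sum.elim y fun _ => s, (hs _).2 rfl, Eq.trans (congrArg ψ ?_) ((h1 _).trans hy)⟩
    funext i
    rcases i with (i | i) | i <;> rfl
  · rintro ⟨z, hz, hz2⟩
    have h3 : z (.inr ()) = s := (hs _).1 hz
    refine ⟨fun b => z (.inl b), (h1 _).symm.trans (Eq.trans (congrArg ψ ?_) hz2)⟩
    funext i
    rcases i with (i | i) | i
    exacts [rfl, rfl, h3.symm]

theorem Dp.out {S : K → Prop} (h : Dp t Unit fun x => S (x ())) :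
    ∃ (n : ℕ) (P : MvPolynomial (Fin (n + 2)) ℤ), ∀ x : K, S x ↔ ∃ y : Fin n → K,
      MvPolynomial.aeval (Fin.cons t (Fin.cons x y : Fin (n + 1) → K) : Fin (n + 2) → K) P = 0 := by
  obtain ⟨β, hβ, φ, hφ, h⟩ := h
  obtain ⟨n, ⟨e⟩⟩ := Finite.exists_equiv_fin β
  obtain ⟨P, hP⟩ := PF.poly hφ (0 : Fin (n + 2))
    (Sum.elim (fun _ => Fin.succ 0) fun b => (e b).succ.succ)
  refine ⟨n, P, fun x => (h fun _ => x).trans ⟨?_, ?_⟩⟩
  · rintro ⟨y, hy⟩
    refine ⟨fun i => y (e.symm i), ?_⟩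
    rw [hP _ rfl]
    refine Eq.trans (congrArg φ ?_) hy
    funext i
    cases i <;> simp
  · rintro ⟨y, hy⟩
    rw [hP _ rfl] at hy
    refine ⟨fun b => y (e b), Eq.trans (congrArg φ ?_) hy⟩
    funext i
    cases i <;> simp

end

end Pool.Agent.MP_28f2cb_lc.H94
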