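import Pool.Agent.MP_28f2cb_lc.H94.Wound
import Pool.Agent.MP_28f2cb_lc.H94.Dio
import Pool.Agent.MP_28f2cb_lc.H49.Main

/-
The integral closure of F[t] is Diophantine in a finite separable extension of F(t).
-/

namespace Pool.Agent.MP_28f2cb_lc.H94

open Polynomial Finset H49

section
variable {K : Type*} [Field K] {t : K} {α : Type}

theorem dp_qu (N m : ℕ) {T I O : (α → K) → K} (hT : T ∈ PF t α) (hI : I ∈ PF t α)
    (hO : O ∈ PF t α) {q : ℕ} (hq : ∀ a b : K, a ^ q - t * b ^ q = 0 ↔ a = 0 ∧ b = 0) :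
    Dp t α fun x => Qu N m t (T x) (I x) (O x) := by
  let b : ℕ → (α ⊕ Fin (m + 1) → K) → K := fun j v =>
    if h : j < m + 1 then v (.inr ⟨j, h⟩) else 0
  have hb : ∀ j, b j ∈ PF t (α ⊕ Fin (m + 1)) := fun j => by
    by_cases h : j < m + 1
    · simp only [b, dif_pos h]; exact PF.var _
    · simp only [b, dif_neg h]; exact PF.zero
  have hl : ∀ {f : (α → K) → K}, f ∈ PF t α →
      (fun v : α ⊕ Fin (m + 1) → K => f fun i => v (.inl i)) ∈ PF t (α ⊕ Fin (m + 1)) :=
    fun hf => PF.comp hf fun _ => PF.var _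
  have h1 : Dp t (α ⊕ Fin (m + 1)) fun v =>
      ∑ j ∈ range (m + 1), t ^ j * b j v ^ N =
        (I fun i => v (.inl i)) + ∑ j ∈ range m, (T fun i => v (.inl i)) ^ j * b j v ∧
      b m v = O fun i => v (.inl i) :=
    Dp.and hq (Dp.eq (PF.sum _ fun j _ => PF.mul (PF.pow PF.par j) (PF.pow (hb j) N))
      (PF.add (hl hI) (PF.sum _ fun j _ => PF.mul (PF.pow (hl hT) j) (hb j))))
      (Dp.eq (hb m) (hl hO))
  refine h1.ex.congr fun x => ⟨?_, ?_⟩
  · rintro ⟨c, hc, hc2⟩
    have h2 : ∀ j < m + 1, b j (Sum.elim x fun i => c i) = c j := fun j hj => dif_pos hj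
    refine ⟨fun i => c i, ?_, (h2 m (by omega)).trans hc2⟩
    rw [sum_congr rfl fun j hj => by rw [h2 j (mem_range.1 hj)],
      sum_congr rfl (s₂ := range m) fun j hj => by rw [h2 j (by have := mem_range.1 hj; omega)]]
    exact hc
  · rintro ⟨z, hz⟩
    exact ⟨fun j => b j (Sum.elim x z), hz⟩

theorem dp_sys (N : ℕ) {f : (α → K) → K} (hf : f ∈ PF t α)
    {q : ℕ} (hq : ∀ a b : K, a ^ q - t * b ^ q = 0 ↔ a = 0 ∧ b = 0) :
    Dp t α fun x => Sys N t (f x) := by
  have hv : ∀ i : Fin 7, (fun v : α ⊕ Fin 7 → K => v (.inr i)) ∈ PF t (α ⊕ Fin 7) :=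
    fun i => PF.var _
  have e1 : ∀ i j : Fin 7, Dp t (α ⊕ Fin 7) fun v =>
      v (.inr i) - t = v (.inr j) ^ N - v (.inr j) := fun i j =>
    Dp.eq (PF.sub (hv i) PF.par) (PF.sub (PF.pow (hv j) N) (hv j))
  have e2 : ∀ i j : Fin 7, Dp t (α ⊕ Fin 7) fun v =>
      t - v (.inr i) = (v (.inr j) ^ N - v (.inr j)) * t * v (.inr i) := fun i j =>
    Dp.eq (PF.sub PF.par (hv i))
      (PF.mul (PF.mul (PF.sub (PF.pow (hv j) N) (hv j)) PF.par) (hv i))
  have h1 := Dp.and hq (e1 0 1) (Dp.and hq (e2 0 2) (Dp.and hq (e1 3 4) (Dp.and hq (e2 3 5)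
    (Dp.and hq (dp_qu N (N - 2) (hv 0) (PF.mul (PF.pow (hv 0) (N - 2)) (hv 6)) (hv 6) hq)
      (dp_qu N (N - 3) (hv 3) (hv 6) (PF.comp hf fun i => PF.var (.inl i)) hq)))))
  refine h1.ex.congr fun x => ⟨?_, ?_⟩
  · rintro ⟨T, u, w, S, u', w', y, h⟩
    exact ⟨![T, u, w, S, u', w', y], h⟩
  · rintro ⟨z, hz⟩
    exact ⟨_, _, _, _, _, _, _, hz⟩

end

theorem qu_map {A B : Type*} [CommRing A] [CommRing B] (f : A →+* B) {N m : ℕ} {t T I O : A}
    (h : Qu N m t T I O) : Qu N m (f t) (f T) (f I) (f O) := by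
  obtain ⟨b, hb, rfl⟩ := h
  refine ⟨fun j => f (b j), ?_, rfl⟩
  simpa only [map_sum, map_mul, map_pow, map_add] using congrArg f hb

theorem sys_map {A B : Type*} [CommRing A] [CommRing B] (f : A →+* B) {N : ℕ} {t x : A}
    (h : Sys N t x) : Sys N (f t) (f x) := by
  obtain ⟨T, u, w, S, u', w', y, a1, a2, a3, a4, h1, h2⟩ := h
  refine ⟨f T, f u, f w, f S, f u', f w', f y, ?_, ?_, ?_, ?_, ?_, qu_map f h2⟩
  · simpa only [map_sub, map_mul, map_pow] using congrArg f a1
  · simpa only [map_sub, map_mul, map_pow] using congrArg f a2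
  · simpa only [map_sub, map_mul, map_pow] using congrArg f a3
  · simpa only [map_sub, map_mul, map_pow] using congrArg f a4
  · simpa only [map_mul, map_pow] using qu_map f h1

theorem integral_of_root {R K : Type*} [CommRing R] [Field K] [Algebra R K] {x : K} (f : K[X])
    (hf : f.Monic) (hc : ∀ i, IsIntegral R (f.coeff i)) (hx : f.eval x = 0) : IsIntegral R x := by
  have h1 : f ∈ lifts (algebraMap (integralClosure R K) K) := by
    rw [lifts_iff_coeff_lifts]
    exact fun i => ⟨⟨_, hc i⟩, rfl⟩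
  obtain ⟨g, hg, -, hm⟩ := lifts_and_natDegree_eq_and_monic h1 hf
  refine isIntegral_trans (A := integralClosure R K) x ⟨g, hm, ?_⟩
  rw [← eval_map, hg, hx]

variable (F K : Type*) [Field F] [Field K] [Algebra F[X] K] [Algebra (RatFunc F) K]
  [IsScalarTower F[X] (RatFunc F) K] [FiniteDimensional (RatFunc F) K]

theorem le_finrank_of_pow {x : K} {m : ℕ} (h : x ^ m = algebraMap F[X] K X) :
    m ≤ Module.finrank (RatFunc F) K := by
  have h1 := congrArg (fun z => vi F (Algebra.norm (RatFunc F) z)) h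
  simp only [map_pow] at h1
  rw [IsScalarTower.algebraMap_apply F[X] (RatFunc F) K, Algebra.norm_algebraMap, map_pow,
    RatFunc.algebraMap_X, vi_X] at h1
  have h2 := congrArg WithZero.log h1
  rw [WithZero.log_pow, WithZero.log_pow, WithZero.log_exp, nsmul_eq_mul, nsmul_eq_mul,
    mul_one] at h2
  exact Nat.le_of_dvd Module.finrank_pos (Int.natCast_dvd_natCast.1 ⟨_, h2.symm⟩)

theorem aniso : ∃ q : ℕ, ∀ a b : K, a ^ q - algebraMap F[X] K X * b ^ q = 0 ↔ a = 0 ∧ b = 0 := by
  refine ⟨Module.finrank (RatFunc F) K + 1, fun a b => ⟨fun h => ?_, ?_⟩⟩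
  · by_cases hb : b = 0
    · subst hb
      simpa using h
    · have h1 : (a / b) ^ (Module.finrank (RatFunc F) K + 1) = algebraMap F[X] K X := by
        rw [div_pow, div_eq_iff (pow_ne_zero _ hb)]
        exact sub_eq_zero.1 h
      have := le_finrank_of_pow F K h1
      omega
  · rintro ⟨rfl, rfl⟩
    simp

theorem exists_monic {x : K} (hx : IsIntegral F[X] x) : ∃ a : ℕ → F[X],
    x ^ Module.finrank (RatFunc F) K +
      ∑ i ∈ range (Module.finrank (RatFunc F) K), algebraMap F[X] K (a i) * x ^ i = 0 := by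
  set d := Module.finrank (RatFunc F) K
  have hm := minpoly.monic hx
  have h1 : (minpoly F[X] x).natDegree ≤ d := by
    rw [← hm.natDegree_map (algebraMap F[X] (RatFunc F)),
      ← minpoly.isIntegrallyClosed_eq_field_fractions' (RatFunc F) hx]
    exact minpoly.natDegree_le x
  let g := minpoly F[X] x * X ^ (d - (minpoly F[X] x).natDegree)
  have hg : g.Monic := hm.mul (monic_X_pow _)
  have hd : g.natDegree = d := by
    rw [hm.natDegree_mul (monic_X_pow _), natDegree_X_pow]; omega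
  have h2 : aeval x g = 0 := by simp [g]
  rw [hg.as_sum, hd] at h2
  exact ⟨g.coeff, by simpa [map_sum] using h2⟩

theorem dp_sep [Algebra.IsSeparable (RatFunc F) K] (p : ℕ) [hp : Fact p.Prime]
    [Algebra (ZMod p) F] [Algebra.IsAlgebraic (ZMod p) F] :
    Dp (algebraMap F[X] K X) Unit fun x => IsIntegral F[X] (x ()) := by
  have : CharP F p := charP_of_injective_ringHom (algebraMap (ZMod p) F).injective p
  have : CharP K p := charP_of_injective_algebraMap (algebraMap (RatFunc F) K).injective p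
  have : PerfectField F := Algebra.IsAlgebraic.perfectField (ZMod p)
  obtain ⟨C0, hC⟩ := pheidas F K p
  obtain ⟨q, hq⟩ := aniso F K
  set r := C0 + 6 with hr
  have hN : r < p ^ r := Nat.lt_pow_self hp.out.one_lt
  obtain ⟨δ, hδ, hB⟩ := lemmaB F K p r (by omega)
  obtain ⟨k, hk⟩ := integral_of_pow F K (δ * (δ * 1)) (by simpa using hδ)
  set N := p ^ r with hN'
  set t := algebraMap F[X] K X with ht
  set d := Module.finrank (RatFunc F) K with hd
  have ht0 : t ≠ 0 := t_ne_zero F K
  have hP : ∀ T u w : K, T - t = u ^ N - u → t - T = (w ^ N - w) * t * T → IsIntegral F[X] T := by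
    intro T u w h1 h2
    have hT : T ≠ 0 := by
      rintro rfl
      exact ht0 (by simpa using h2)
    refine hC r (by omega) (by omega) T u w hT h1 ?_
    field_simp
    linear_combination h2
  have sound : ∀ a : K, Sys N t (a ^ k) → IsIntegral F[X] a := by
    rintro a ⟨T, u, w, S, u', w', y, a1, a2, a3, a4, ⟨b, hb, rfl⟩, ⟨c, hc, hca⟩⟩
    have hT := hP T u w a1 a2
    have hS := hP S u' w' a3 a4
    have e1 : N - 1 = N - 2 + 1 := by omega
    have e2 : N - 2 = N - 3 + 1 := by omega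
    have h1 := hB 1 b (fun j => T ^ j) 0 one_ne_zero (by simpa using isIntegral_zero)
      (fun j => hT.pow j) (by rw [e1, hb, sum_range_succ]; ring) (N - 2) (by omega)
    have h2 := hB (δ * 1) (fun j => if j < N - 2 then c j else 0)
      (fun j => if j < N - 3 then S ^ j else 0) (b (N - 2)) (by simpa using hδ) h1
      (fun j => by
        split_ifs
        exacts [hS.pow j, isIntegral_zero])
      (by
        have e3 : ∑ j ∈ range (N - 2), t ^ j * (if j < N - 2 then c j else 0) ^ N =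
            ∑ j ∈ range (N - 2), t ^ j * c j ^ N :=
          sum_congr rfl fun j hj => by rw [if_pos (mem_range.1 hj)]
        have e4 : ∑ j ∈ range (N - 3), (if j < N - 3 then S ^ j else 0) *
            (if j < N - 2 then c j else 0) = ∑ j ∈ range (N - 3), S ^ j * c j :=
          sum_congr rfl fun j hj => by
            have := mem_range.1 hj
            rw [if_pos this, if_pos (by omega)]
        rw [← e2] at hc
        rw [e1, sum_range_succ, sum_range_succ, if_neg (lt_irrefl _), zero_pow (by omega),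
          mul_zero, mul_zero, add_zero, add_zero, e3, hc, ← e4]
        congr 1
        conv_rhs => rw [show range (N - 2) = range (N - 3 + 1) by rw [← e2], sum_range_succ,
          if_neg (lt_irrefl _), zero_mul, add_zero])
      (N - 3) (by omega)
    rw [if_pos (by omega), hca] at h2
    exact hk a h2
  have compl : ∀ f : F[X], Sys N t (algebraMap F[X] K f ^ k) := by
    intro f
    have h1 := (mem_iff_sys p r (by omega) (algebraMap F[X] (RatFunc F) (f ^ k))).1 ⟨_, rfl⟩
    have h2 := sys_map (algebraMap (RatFunc F) K) h1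
    rwa [← IsScalarTower.algebraMap_apply, map_pow, ← RatFunc.algebraMap_X,
      ← IsScalarTower.algebraMap_apply] at h2
  have h1 : Dp t (Unit ⊕ Fin d) fun v => (∀ i ∈ univ, Sys N t (v (.inr i) ^ k)) ∧
      v (.inl ()) ^ d + ∑ i : Fin d, v (.inr i) * v (.inl ()) ^ (i : ℕ) = 0 :=
    Dp.and hq (Dp.all hq univ fun i => dp_sys N (PF.pow (PF.var _) k) hq)
      (Dp.eq (PF.add (PF.pow (PF.var _) d)
        (PF.sum _ fun i _ => PF.mul (PF.var _) (PF.pow (PF.var _) _))) PF.zero)
  refine h1.ex.congr fun x => ⟨fun hx => ?_, ?_⟩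
  · obtain ⟨a, ha⟩ := exists_monic F K hx
    refine ⟨fun i => algebraMap F[X] K (a i), fun i _ => compl _, ?_⟩
    rw [sum_range] at ha
    exact ha
  · rintro ⟨z, hz, hz2⟩
    have hd0 : (∑ i : Fin d, C (z i) * X ^ (i : ℕ)).degree < (d : WithBot ℕ) :=
      degree_sum_fin_lt z
    refine integral_of_root (X ^ d + ∑ i : Fin d, Polynomial.C (z i) * X ^ (i : ℕ))
      (monic_X_pow_add hd0) (fun i => ?_) ?_
    · rw [coeff_add, finsetSum_coeff, coeff_X_pow]
      refine IsIntegral.add ?_ (IsIntegral.sum _ fun j _ => ?_)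
      · split_ifs
        exacts [isIntegral_one, isIntegral_zero]
      · rw [coeff_C_mul_X_pow]
        split_ifs
        exacts [sound _ (hz j (mem_univ _)), isIntegral_zero]
    · simpa [eval_finsetSum] using hz2

end Pool.Agent.MP_28f2cb_lc.H94
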