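import Mathlib

/-
The derivation d/dt on a finite separable extension of F(t), and its kernel.
-/

namespace Pool.Agent.MP_28f2cb_lc.H94

open Polynomial

/-- A copy of the dual numbers without its standard algebra structures. -/
def Dual (K : Type*) [Field K] : Type _ := TrivSqZeroExt K K

noncomputable instance (K : Type*) [Field K] : CommRing (Dual K) :=
  inferInstanceAs (CommRing (TrivSqZeroExt K K))

theorem extend {R K : Type*} [CommRing R] [Field K] [Algebra R K] [Algebra.FormallySmooth R K]
    (φ : R →+* TrivSqZeroExt K K) (hφ : ∀ r, (φ r).fst = algebraMap R K r) :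
    ∃ δ : Derivation ℤ K K, ∀ r, δ (algebraMap R K r) = (φ r).snd := by
  let : Algebra R (Dual K) := RingHom.toAlgebra φ
  let g0 : Dual K →+* K := (TrivSqZeroExt.fstHom K K K).toRingHom
  let g : Dual K →ₐ[R] K := { g0 with commutes' := hφ }
  have hs : Function.Surjective g := fun x => ⟨TrivSqZeroExt.inl x, rfl⟩
  have hn : IsNilpotent (RingHom.ker (g : Dual K →+* K)) := by
    refine ⟨2, ?_⟩
    rw [pow_two, Ideal.zero_eq_bot, eq_bot_iff, Ideal.mul_le]
    intro r hr s hs
    have h1 : TrivSqZeroExt.fst (R := K) (M := K) r = 0 := hr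
    have h2 : TrivSqZeroExt.fst (R := K) (M := K) s = 0 := hs
    have : ∀ r s : TrivSqZeroExt K K, r.fst = 0 → s.fst = 0 → r * s = 0 := by
      intro r s h1 h2
      ext <;> simp [h1, h2]
    exact this r s h1 h2
  let σ := Algebra.FormallySmooth.liftOfSurjective (AlgHom.id R K) g hs hn
  have hσ : ∀ x, TrivSqZeroExt.fst (R := K) (M := K) (σ x) = x := fun x =>
    Algebra.FormallySmooth.liftOfSurjective_apply (AlgHom.id R K) g hs hn x
  have hmul : ∀ x y, TrivSqZeroExt.snd (R := K) (M := K) (σ (x * y)) =
      x * TrivSqZeroExt.snd (R := K) (M := K) (σ y) +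
        y * TrivSqZeroExt.snd (R := K) (M := K) (σ x) := by
    intro x y
    rw [map_mul]
    have := TrivSqZeroExt.snd_mul (R := K) (M := K) (σ x) (σ y)
    rw [hσ, hσ] at this
    refine this.trans ?_
    simp [mul_comm]
  let D : K →+ K :=
    { toFun := fun x => TrivSqZeroExt.snd (R := K) (M := K) (σ x)
      map_zero' := by rw [map_zero]; rfl
      map_add' := fun x y => by rw [map_add]; rfl }
  exact ⟨Derivation.mk' D.toIntLinearMap hmul, fun r =>
    congrArg (TrivSqZeroExt.snd (R := K) (M := K)) (σ.commutes r)⟩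

theorem exists_der (F K : Type*) [Field F] [Field K] [Algebra F[X] K] [Algebra (RatFunc F) K]
    [IsScalarTower F[X] (RatFunc F) K] [Algebra.IsSeparable (RatFunc F) K] :
    ∃ D : Derivation ℤ K K, ∀ q : F[X],
      D (algebraMap F[X] K q) = algebraMap F[X] K (derivative q) := by
  have : Algebra.FormallyEtale (RatFunc F) K := Algebra.FormallyEtale.of_isSeparable _ _
  have : Algebra.FormallySmooth F[X] (RatFunc F) := .of_isLocalization (nonZeroDivisors _)
  have : Algebra.FormallySmooth F[X] K := .comp _ (RatFunc F) _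
  let φ : F[X] →+* TrivSqZeroExt K K :=
    { toFun := fun r => TrivSqZeroExt.inl (algebraMap F[X] K r) +
        TrivSqZeroExt.inr (algebraMap F[X] K (derivative r))
      map_one' := by ext <;> simp
      map_mul' := fun x y => by
        ext
        · simp
        · simp only [TrivSqZeroExt.snd_mul, TrivSqZeroExt.snd_add, TrivSqZeroExt.fst_add,
            TrivSqZeroExt.snd_inl, TrivSqZeroExt.snd_inr, TrivSqZeroExt.fst_inl,
            TrivSqZeroExt.fst_inr, zero_add, add_zero, derivative_mul, op_smul_eq_smul,
            map_add, map_mul, smul_eq_mul]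
          ring
      map_zero' := by ext <;> simp
      map_add' := fun x y => by ext <;> simp [Algebra.algebraMap_eq_smul_one, add_smul] }
  obtain ⟨D, hD⟩ := extend φ (fun r => by simp [φ])
  exact ⟨D, fun q => by rw [hD]; simp [φ, Algebra.algebraMap_eq_smul_one]⟩

theorem der_pow_char {K : Type*} [Field K] (p : ℕ) [CharP K p] (D : Derivation ℤ K K) (x : K) :
    D (x ^ p) = 0 := by
  rw [Derivation.leibniz_pow, nsmul_eq_mul, CharP.cast_eq_zero, zero_mul]

theorem der_aeval {R K : Type*} [Field R] [Field K] [Algebra R K] (D : Derivation ℤ K K)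
    (hR : ∀ r : R, D (algebraMap R K r) = 0) (t : K) (ht : D t = 1) (f : R[X]) :
    D (aeval t f) = aeval t (derivative f) := by
  induction f using Polynomial.induction_on' with
  | add f g hf hg => simp [hf, hg]
  | monomial n c =>
    rw [derivative_monomial, aeval_monomial, aeval_monomial, Derivation.leibniz, hR c,
      Derivation.leibniz_pow, ht]
    simp [mul_assoc]

theorem const_of_der {R K : Type*} [Field R] [Field K] [Algebra R K] (p : ℕ) [CharP K p]
    (D : Derivation ℤ K K) (hR : ∀ r : R, D (algebraMap R K r) = 0) (t : K) (ht : D t = 1) :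
    ∀ n, n < p → ∀ f : R[X], f.natDegree ≤ n → D (aeval t f) = 0 → ∃ c, f = C c := by
  intro n
  induction n with
  | zero => exact fun _ f hf _ => ⟨_, eq_C_of_natDegree_le_zero hf⟩
  | succ n ih =>
    intro hn f hf h
    rw [der_aeval D hR t ht] at h
    have h1 : (derivative f).natDegree ≤ n := by
      have := natDegree_derivative_le f
      omega
    obtain ⟨c, hc⟩ := ih (by omega) _ h1 (by rw [h, map_zero])
    rw [hc, aeval_C] at h
    have hc0 : c = 0 := by simpa using h
    rw [hc0, map_zero] at hc
    refine ⟨f.coeff 0, eq_C_of_natDegree_le_zero ?_⟩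
    rw [natDegree_le_iff_coeff_eq_zero]
    intro j hj
    obtain ⟨j, rfl⟩ : ∃ i, j = i + 1 := ⟨j - 1, by omega⟩
    by_cases hjp : n + 1 < j + 1
    · exact coeff_eq_zero_of_natDegree_lt (by omega)
    · have h2 := congrArg (fun g => g.coeff j) hc
      simp only [coeff_derivative, coeff_zero] at h2
      refine (mul_eq_zero.1 h2).resolve_right fun h3 => ?_
      have h4 : ((j + 1 : ℕ) : K) = 0 := by
        have := congrArg (algebraMap R K) h3
        simpa using this
      rw [CharP.cast_eq_zero_iff K p] at h4
      have := Nat.le_of_dvd (by omega) h4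
      omega

theorem span_pow (F K : Type*) [Field F] [Field K] [Algebra F[X] K] [Algebra (RatFunc F) K]
    [IsScalarTower F[X] (RatFunc F) K] [Algebra.IsSeparable (RatFunc F) K]
    (p : ℕ) [hp : Fact p.Prime] [CharP F p] [CharP K p] [PerfectRing F p] (g : K) :
    ∃ f : (frobenius K p).fieldRange[X], f.natDegree < p ∧ aeval (algebraMap F[X] K X) f = g := by
  let R : Subfield K := (frobenius K p).fieldRange
  set t := algebraMap F[X] K X with htd
  let M := Algebra.adjoin R {t}
  have hpow : ∀ x : K, x ^ p ∈ M := fun x => M.algebraMap_mem (⟨x ^ p, x, rfl⟩ : R)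
  have htM : t ∈ M := Algebra.subset_adjoin rfl
  have hpoly : ∀ q : F[X], algebraMap F[X] K q ∈ M := by
    intro q
    induction q using Polynomial.induction_on' with
    | add f g hf hg => rw [map_add]; exact add_mem hf hg
    | monomial n c =>
      obtain ⟨c, rfl⟩ := surjective_frobenius F p c
      rw [← C_mul_X_pow_eq_monomial, map_mul, map_pow, frobenius_def, map_pow, map_pow]
      exact mul_mem (hpow _) (pow_mem htM _)
  have hrat : ∀ r : RatFunc F, algebraMap (RatFunc F) K r ∈ M := by
    intro r
    induction r using RatFunc.induction_on with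
    | f a b hb =>
      rw [map_div₀, ← IsScalarTower.algebraMap_apply, ← IsScalarTower.algebraMap_apply]
      have hb' : algebraMap F[X] K b ≠ 0 := by
        rw [IsScalarTower.algebraMap_apply F[X] (RatFunc F) K]
        simpa using hb
      have : algebraMap F[X] K a / algebraMap F[X] K b =
          algebraMap F[X] K a * algebraMap F[X] K b ^ (p - 1) * (algebraMap F[X] K b)⁻¹ ^ p := by
        obtain ⟨m, hm⟩ : ∃ m, p = m + 1 := ⟨p - 1, by have := hp.out.pos; omega⟩
        rw [hm, Nat.add_sub_cancel, inv_pow, pow_succ]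
        field_simp
      rw [this]
      exact mul_mem (mul_mem (hpoly a) (pow_mem (hpoly b) _)) (hpow _)
  have hall : ∀ x : K, x ∈ M := by
    intro x
    have : CharP (RatFunc F) p := inferInstance
    have h1 := Field.span_map_pow_expChar_pow_eq_top_of_isSeparable (F := RatFunc F) (E := K)
      (v := fun x : K => x) p 1 (by simp)
    have h2 : x ∈ Submodule.span (RatFunc F) (Set.range fun x : K => x ^ p ^ 1) := by
      rw [h1]; trivial
    induction h2 using Submodule.span_induction with
    | mem y hy =>
      obtain ⟨y, rfl⟩ := hy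
      simpa using hpow y
    | zero => exact zero_mem _
    | add a b _ _ ha hb => exact add_mem ha hb
    | smul a b _ hb => rw [Algebra.smul_def]; exact mul_mem (hrat a) hb
  have hg1 := hall g
  simp only [M] at hg1
  rw [Algebra.adjoin_singleton_eq_range_aeval] at hg1
  obtain ⟨f, hf⟩ := hg1
  let m : R[X] := X ^ p - C ⟨t ^ p, t, rfl⟩
  have hm : m.Monic := monic_X_pow_sub_C _ hp.out.ne_zero
  have hm0 : aeval t m = 0 := by
    simp only [m, map_sub, map_pow, aeval_X, aeval_C]
    exact sub_self _
  have hf2 : aeval t (f %ₘ m) = g := by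
    rw [aeval_modByMonic_eq_self_of_root hm0]; exact hf
  refine ⟨f %ₘ m, ?_, hf2⟩
  have h1 : m.natDegree = p := natDegree_X_pow_sub_C
  have h2 : m ≠ 1 := fun h => by
    rw [h, natDegree_one] at h1
    exact hp.out.ne_zero h1.symm
  simpa [h1] using natDegree_modByMonic_lt f hm h2

theorem der_range {K : Type*} [Field K] (p : ℕ) [Fact p.Prime] [CharP K p] (D : Derivation ℤ K K)
    (r : (frobenius K p).fieldRange) : D (algebraMap _ K r) = 0 := by
  obtain ⟨_, x, rfl⟩ := r
  exact der_pow_char p D x

theorem ker_der (F K : Type*) [Field F] [Field K] [Algebra F[X] K] [Algebra (RatFunc F) K]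
    [IsScalarTower F[X] (RatFunc F) K] [Algebra.IsSeparable (RatFunc F) K]
    (p : ℕ) [hp : Fact p.Prime] [CharP F p] [CharP K p] [PerfectRing F p]
    (D : Derivation ℤ K K) (ht : D (algebraMap F[X] K X) = 1) (g : K) (hg : D g = 0) :
    ∃ h, g = h ^ p := by
  obtain ⟨f, hdeg, hf⟩ := span_pow F K p g
  obtain ⟨⟨c, x, hx⟩, hc⟩ := const_of_der p D (der_range p D) _ ht _ hdeg _ le_rfl (by rw [hf, hg])
  refine ⟨x, ?_⟩
  rw [← hf, hc, aeval_C]
  exact hx.symm

end Pool.Agent.MP_28f2cb_lc.H94
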