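import Pool.Agent.MP_28f2cb_lc.H94.Der

/-
Local estimates for the logarithmic derivative at a discrete valuation.
-/

namespace Pool.Agent.MP_28f2cb_lc.H94

open WithZero

section
variable {K : Type*} [Field K] (v : Valuation K ℤᵐ⁰)

theorem val_intCast_le (n : ℤ) : v (n : K) ≤ 1 := by
  have h : ∀ m : ℕ, v (m : K) ≤ 1 := by
    intro m
    induction m with
    | zero => simp
    | succ m ih =>
      rw [Nat.cast_succ]
      exact v.map_add_le ih (by simp)
  obtain ⟨m, rfl | rfl⟩ := n.eq_nat_or_neg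
  · simpa using h m
  · simpa using h m

theorem val_der_le (π : K) (hπ : v π = exp (-1 : ℤ)) (E : Derivation ℤ K K)
    (hE : ∀ x, v x ≤ 1 → v (E x) ≤ 1) (h : K) : v (E h) ≤ v h * exp 1 := by
  rcases eq_or_ne h 0 with rfl | h0
  · simp
  have hv : v h ≠ 0 := by simpa using h0
  have hπ0 : π ≠ 0 := by
    rintro rfl
    simp at hπ
    exact exp_ne_zero hπ.symm
  obtain ⟨n, hn⟩ : ∃ n : ℤ, v h = exp n := ⟨log (v h), (exp_log hv).symm⟩
  have hz : ∀ m : ℤ, v (π ^ m) = exp (-m) := fun m => by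
    rw [map_zpow₀, hπ, ← exp_zsmul]; simp
  set u := h * π ^ n with hu
  have hvu : v u = 1 := by rw [hu, map_mul, hz, hn, ← exp_add]; simp
  have hh : h = π ^ (-n) * u := by
    rw [hu, zpow_neg]; field_simp
  have h1 : E h = π ^ (-n) * E u + u * ((-n : ℤ) * (π ^ (-n - 1) * E π)) := by
    conv_lhs => rw [hh]
    rw [Derivation.leibniz, Derivation.leibniz_zpow]
    simp
  rw [h1, hn, ← exp_add]
  refine v.map_add_le ?_ ?_
  · rw [map_mul, hz]
    calc exp (- -n) * v (E u) ≤ exp (- -n) * 1 := by gcongr; exact hE u hvu.le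
      _ ≤ exp (n + 1) := by rw [mul_one, exp_le_exp]; omega
  · rw [map_mul, hvu, map_mul, map_mul, hz, one_mul]
    have h2 : v π ≤ 1 := by rw [hπ, ← exp_zero, exp_le_exp]; omega
    calc v ((-n : ℤ) : K) * (exp (-(-n - 1)) * v (E π)) ≤ 1 * (exp (-(-n - 1)) * 1) := by
          gcongr
          · exact val_intCast_le v _
          · exact hE π h2
      _ = exp (n + 1) := by rw [mul_one, one_mul]; congr 1; ring

/-- at a pole of a solution of the twisted Artin-Schreier equation the logarithmic derivative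
has a zero of high order. -/
theorem val_der_pole (p : ℕ) [hp : Fact p.Prime] [CharP K p]
    (π : K) (hπ : v π = exp (-1 : ℤ)) (E : Derivation ℤ K K)
    (hE : ∀ x, v x ≤ 1 → v (E x) ≤ 1) (k r : ℕ) (hk : k < r) (τ g u : K) (hτ : v τ ≤ 1)
    (heq : g ^ p ^ k - τ = u ^ p ^ r - u) (hg : 1 < v g) :
    v (E g) ≤ v g * exp (2 - (p ^ r : ℕ) : ℤ) := by
  obtain ⟨l, rfl⟩ : ∃ l, r = k + (l + 1) := ⟨r - k - 1, by omega⟩
  set N := p ^ (k + (l + 1)) with hN
  have hq : p ^ k ≠ 0 := pow_ne_zero _ hp.out.ne_zero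
  have hN2 : 1 < N := Nat.one_lt_pow (by omega) hp.out.one_lt
  have hgq : g ^ p ^ k = u ^ N + (τ - u) := by linear_combination heq
  have hu : 1 < v u := by
    by_contra hu
    push Not at hu
    have h1 : v (g ^ p ^ k) ≤ 1 := by
      rw [hgq]
      refine v.map_add_le ?_ (v.map_sub_le hτ hu)
      rw [map_pow]; exact pow_le_one₀ zero_le hu
    rw [map_pow] at h1
    exact absurd (one_lt_pow₀ hg hq) (not_lt.2 h1)
  have hut : v (τ - u) = v u := v.map_sub_eq_of_lt_right (hτ.trans_lt hu)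
  have huN : v u < v (u ^ N) := by
    rw [map_pow]
    exact lt_self_pow₀ hu hN2
  have hvg : v g ^ p ^ k = v u ^ N := by
    rw [← map_pow, hgq, v.map_add_eq_of_lt_left (by rw [hut]; exact huN), map_pow]
  set h := u ^ p ^ (l + 1) - g with hh
  have hhq : h ^ p ^ k = u - τ := by
    rw [hh, sub_pow_char_pow, ← pow_mul, ← pow_add, add_comm (l + 1) k, hgq]
    ring
  have hvh : v h ^ p ^ k = v u := by
    rw [← map_pow, hhq, ← hut, Valuation.map_sub_swap]
  have hh0 : v h ≠ 0 := by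
    intro h0
    rw [h0, zero_pow hq] at hvh
    rw [← hvh] at hu
    exact absurd hu (by simp)
  obtain ⟨m, hm⟩ : ∃ n : ℤ, v h = exp n := ⟨log (v h), (exp_log hh0).symm⟩
  have hgh : v g = v h ^ N := by
    refine (pow_left_inj₀ zero_le zero_le hq).1 ?_
    rw [hvg, ← hvh, ← pow_mul, ← pow_mul, mul_comm]
  have hm1 : 1 ≤ m := by
    by_contra hm1
    have : v h ≤ 1 := by rw [hm, ← exp_zero, exp_le_exp]; omega
    rw [← hvh] at hu
    exact absurd hu (not_lt.2 (pow_le_one₀ zero_le this))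
  have hD : E g = -E h := by
    rw [hh, map_sub, pow_succ, pow_mul, der_pow_char p]
    simp
  rw [hD, Valuation.map_neg]
  refine (val_der_le v π hπ E hE h).trans ?_
  rw [hgh, hm, ← exp_nsmul, ← exp_add, ← exp_add, exp_le_exp, nsmul_eq_mul]
  have : (1 : ℤ) < N := by exact_mod_cast hN2
  nlinarith

theorem exp_one_le_of_one_lt {x : ℤᵐ⁰} (h : 1 < x) : exp 1 ≤ x := by
  have h0 : x ≠ 0 := (zero_lt_one.trans h).ne'
  rw [← exp_log h0, ← exp_zero, exp_lt_exp] at h
  rw [← exp_log h0, exp_le_exp]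
  omega

theorem le_exp_neg_one_of_lt_one {x : ℤᵐ⁰} (h : x < 1) : x ≤ exp (-1) := by
  rcases eq_or_ne x 0 with rfl | h0
  · simp
  rw [← exp_log h0, ← exp_zero, exp_lt_exp] at h
  rw [← exp_log h0, exp_le_exp]
  omega

/-- the normalised logarithmic derivative is integral. -/
theorem val_logder_le (p : ℕ) [hp : Fact p.Prime] [CharP K p]
    (π : K) (hπ : v π = exp (-1 : ℤ)) (E : Derivation ℤ K K)
    (hE : ∀ x, v x ≤ 1 → v (E x) ≤ 1) (k r : ℕ) (hk : k < r) (t g u w : K) (ht : v t ≤ 1)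
    (h1 : g ^ p ^ k - t = u ^ p ^ r - u) (h2 : g⁻¹ ^ p ^ k - t⁻¹ = w ^ p ^ r - w) (hg : g ≠ 0) :
    v (t * (E g / g)) ≤ 1 := by
  have hg0 : 0 < v g := by simpa [pos_iff_ne_zero] using hg
  have hN2 : 1 < p ^ r := Nat.one_lt_pow (by omega) hp.out.one_lt
  have hN : exp (2 - (p ^ r : ℕ) : ℤ) ≤ 1 := by
    rw [← exp_zero, exp_le_exp]; omega
  rw [map_mul, map_div₀]
  rcases ht.lt_or_eq with ht1 | ht1
  · have h3 : v (E g) / v g ≤ exp 1 := by
      rw [div_le_iff₀ hg0, mul_comm]; exact val_der_le v π hπ E hE g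
    calc v t * (v (E g) / v g) ≤ exp (-1) * exp 1 := by
          gcongr; exact le_exp_neg_one_of_lt_one ht1
      _ = 1 := by rw [← exp_add]; simp
  rw [ht1, one_mul, div_le_one₀ hg0]
  rcases lt_trichotomy (v g) 1 with hv | hv | hv
  · have hv' : 1 < v g⁻¹ := by rw [map_inv₀]; exact (one_lt_inv₀ hg0).2 hv
    have h3 := val_der_pole v p π hπ E hE k r hk t⁻¹ g⁻¹ w (by rw [map_inv₀, ht1, inv_one]) h2 hv'
    have h4 : E g = -(g ^ 2 * E g⁻¹) := by
      rw [Derivation.leibniz_inv, smul_eq_mul]; field_simp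
    rw [h4, Valuation.map_neg, map_mul, map_pow]
    calc v g ^ 2 * v (E g⁻¹) ≤ v g ^ 2 * (v g⁻¹ * 1) := by
          gcongr; exact h3.trans (by gcongr)
      _ = v g := by rw [map_inv₀, mul_one, pow_two, mul_assoc, mul_inv_cancel₀ hg0.ne', mul_one]
  · rw [hv]; exact hE g hv.le
  · refine (val_der_pole v p π hπ E hE k r hk t g u ht h1 hv).trans ?_
    calc v g * exp (2 - (p ^ r : ℕ) : ℤ) ≤ v g * 1 := by gcongr
      _ = v g := mul_one _

end

open IsDedekindDomain

theorem der_local {O K : Type*} [CommRing O] [IsDedekindDomain O] [Field K] [Algebra O K]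
    [IsFractionRing O K] (E : Derivation ℤ K K)
    (hE : ∀ a : O, ∃ b : O, E (algebraMap O K a) = algebraMap O K b)
    (P : HeightOneSpectrum O) (x : K) (hx : P.valuation K x ≤ 1) :
    P.valuation K (E x) ≤ 1 := by
  obtain ⟨a, d, h⟩ := P.exists_primeCompl_mul_eq_of_integer x hx
  have hd : P.valuation K (algebraMap O K d) = 1 := by
    rw [P.valuation_of_algebraMap]
    exact (P.intValuation_eq_one_iff_mem_primeCompl d).2 d.2
  obtain ⟨a', ha⟩ := hE a
  obtain ⟨d', hd'⟩ := hE d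
  have h1 := congrArg E h
  rw [Derivation.leibniz, ha, hd', smul_eq_mul, smul_eq_mul] at h1
  have h2 : algebraMap O K d * E x = algebraMap O K a' - x * algebraMap O K d' := by
    linear_combination h1
  have h3 : P.valuation K (algebraMap O K d * E x) ≤ 1 := by
    rw [h2]
    refine Valuation.map_sub_le _ (P.valuation_le_one a') ?_
    rw [map_mul]
    exact mul_le_one' hx (P.valuation_le_one d')
  rwa [map_mul, hd, one_mul] at h3

end Pool.Agent.MP_28f2cb_lc.H94
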