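import Pool.Agent.MP_28f2cb_lc.H94.Places

/-
Solutions of the system of Pheidas in a function field are integral when the exponent is large.
-/

namespace Pool.Agent.MP_28f2cb_lc.H94

open WithZero Polynomial

variable (F K : Type*) [Field F] [Field K] [Algebra F[X] K] [Algebra (RatFunc F) K]
  [IsScalarTower F[X] (RatFunc F) K] [FiniteDimensional (RatFunc F) K]
  [Algebra.IsSeparable (RatFunc F) K]

open Classical in
/-- the valuation at infinity. -/
noncomputable def vi : Valuation (RatFunc F) ℤᵐ⁰ := RatFunc.inftyValuation F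

theorem vi_poly {q : F[X]} (hq : q ≠ 0) :
    vi F (algebraMap F[X] (RatFunc F) q) = exp (q.natDegree : ℤ) := by
  classical
  exact RatFunc.inftyValuation.polynomial F hq

theorem vi_X : vi F RatFunc.X = exp 1 := by
  simpa using vi_poly F (q := X) X_ne_zero

theorem vi_derivative (q : F[X]) :
    vi F (algebraMap F[X] (RatFunc F) (derivative q)) ≤ vi F (algebraMap F[X] (RatFunc F) q) := by
  by_cases h : derivative q = 0
  · simp [h]
  have hq : q ≠ 0 := by rintro rfl; simp at h
  rw [vi_poly F h, vi_poly F hq, exp_le_exp]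
  have := natDegree_derivative_le q
  omega

theorem norm_deg {I : Ideal F[X]} (hI : I.IsMaximal) {k : ℕ} {a : F[X]} (ha : a ∈ I ^ k)
    (h0 : a ≠ 0) : exp (k : ℤ) ≤ vi F (algebraMap F[X] (RatFunc F) a) := by
  obtain ⟨π, rfl⟩ : ∃ π, I = Ideal.span {π} := ⟨_, (Ideal.span_singleton_generator I).symm⟩
  rw [Ideal.span_singleton_pow, Ideal.mem_span_singleton] at ha
  rw [vi_poly F h0, exp_le_exp]
  rcases Nat.eq_zero_or_pos k with rfl | hk
  · simp
  have hπ : π ≠ 0 := by
    rintro rfl
    rw [zero_pow hk.ne', zero_dvd_iff] at ha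
    exact h0 ha
  have hu : ¬IsUnit π := fun h => hI.ne_top (Ideal.span_singleton_eq_top.2 h)
  have h1 : 0 < π.natDegree := by
    rw [natDegree_pos_iff_degree_pos]
    exact degree_pos_of_ne_zero_of_nonunit hπ hu
  have h2 := natDegree_le_of_dvd ha h0
  rw [natDegree_pow] at h2
  have : k ≤ a.natDegree := by nlinarith
  exact_mod_cast this

theorem infty_bound (D : Derivation ℤ K K)
    (hD : ∀ q : F[X], D (algebraMap F[X] K q) = algebraMap F[X] K (derivative q)) :
    ∃ ε : RatFunc F, ε ≠ 0 ∧ ∀ g : K, g ≠ 0 →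
      vi F (Algebra.norm (RatFunc F) (algebraMap (RatFunc F) K ε * (D g / g))) ≤ 1 := by
  have : (vi F).IsNontrivial := ⟨RatFunc.X, by simp [vi_X]⟩
  let A := (vi F).valuationSubring
  have : IsDiscreteValuationRing A := inferInstance
  have hA : ∀ a : A, IsIntegral A (D (algebraMap A K a)) := by
    rintro ⟨a, ha⟩
    induction a using RatFunc.induction_on with
    | f a b hb =>
      have hb1 : algebraMap F[X] (RatFunc F) b ≠ 0 := by simpa using hb
      have hb2 : algebraMap F[X] K b ≠ 0 := by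
        rw [IsScalarTower.algebraMap_apply F[X] (RatFunc F) K]
        simpa using hb
      have hvb : 0 < vi F (algebraMap F[X] (RatFunc F) b) := by simpa [pos_iff_ne_zero] using hb
      have ha' : vi F (algebraMap F[X] (RatFunc F) a) ≤ vi F (algebraMap F[X] (RatFunc F) b) := by
        have h : vi F _ ≤ 1 := ha
        rwa [map_div₀, div_le_one₀ hvb] at h
      let c : RatFunc F := (algebraMap F[X] _ b * algebraMap F[X] _ (derivative a) -
        algebraMap F[X] _ a * algebraMap F[X] _ (derivative b)) / algebraMap F[X] _ b ^ 2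
      have hc : c ∈ A := by
        show vi F c ≤ 1
        rw [map_div₀, map_pow, div_le_one₀ (pow_pos hvb 2), pow_two]
        refine Valuation.map_sub_le _ ?_ ?_
        · rw [map_mul]; gcongr; exact (vi_derivative F a).trans ha'
        · rw [map_mul]; gcongr; exact vi_derivative F b
      have h1 : D (algebraMap (RatFunc F) K (algebraMap F[X] _ a / algebraMap F[X] _ b)) =
          algebraMap A K ⟨c, hc⟩ := by
        show _ = algebraMap (RatFunc F) K c
        simp only [c, map_div₀, map_sub, map_mul, map_pow, ← IsScalarTower.algebraMap_apply]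
        rw [Derivation.leibniz_div, hD, hD]
        simp only [smul_eq_mul]
        field_simp
      have h2 : IsIntegral A (algebraMap A K ⟨c, hc⟩) := isIntegral_algebraMap
      rw [← h1] at h2
      exact h2
  obtain ⟨δ, hδ, h⟩ := exists_delta A (RatFunc F) K D hA
  obtain ⟨S, h1, -, h3, h4, h5⟩ := exists_places A (RatFunc F) K
  have hX : vi F RatFunc.X⁻¹ < 1 := by
    rw [map_inv₀, vi_X, ← exp_neg, ← exp_zero, exp_lt_exp]; omega
  let s : A := ⟨RatFunc.X⁻¹, hX.le⟩
  refine ⟨RatFunc.X⁻¹ * (δ : RatFunc F), mul_ne_zero (inv_ne_zero RatFunc.X_ne_zero)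
    (fun h0 => hδ (Subtype.ext h0)), fun g hg => ?_⟩
  have hint : IsIntegral A
      (algebraMap (RatFunc F) K (RatFunc.X⁻¹ * (δ : RatFunc F)) * (D g / g)) := by
    refine h3 _ fun v hv => ?_
    obtain ⟨π, hπ⟩ := h1 v hv
    obtain ⟨I, hI, hI2, -⟩ := h5 v hv
    have hs : s ∈ I := by
      rw [IsLocalRing.eq_maximalIdeal hI]
      exact (Valuation.mem_maximalIdeal_iff _ _).2 hX
    have h6 := le_exp_neg_one_of_lt_one (hI2 s hs)
    have h7 := val_der_le v π hπ (algebraMap A K δ • D) (h4 _ h v hv) g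
    have hg0 : 0 < v g := by simpa [pos_iff_ne_zero] using hg
    rw [mul_comm, ← div_le_iff₀ hg0, ← map_div₀] at h7
    have h8 : algebraMap (RatFunc F) K (RatFunc.X⁻¹ * (δ : RatFunc F)) * (D g / g) =
        algebraMap A K s * ((algebraMap A K δ • D) g / g) := by
      rw [map_mul, Derivation.smul_apply, smul_eq_mul, mul_assoc, mul_div_assoc]
      rfl
    rw [h8, map_mul]
    calc v (algebraMap A K s) * v ((algebraMap A K δ • D) g / g) ≤ exp (-1) * exp 1 := by gcongr
      _ = 1 := by rw [← exp_add]; simp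
  obtain ⟨y, hy⟩ := IsIntegrallyClosed.isIntegral_iff.1 (Algebra.isIntegral_norm (RatFunc F) hint)
  rw [← hy]
  exact y.2

omit [FiniteDimensional (RatFunc F) K] [Algebra.IsSeparable (RatFunc F) K] in
theorem t_ne_zero : algebraMap F[X] K X ≠ 0 := by
  rw [IsScalarTower.algebraMap_apply F[X] (RatFunc F) K]
  simp [RatFunc.X_ne_zero]

omit [FiniteDimensional (RatFunc F) K] [Algebra.IsSeparable (RatFunc F) K] in
theorem poly_ne_zero {q : F[X]} (hq : q ≠ 0) : algebraMap F[X] K q ≠ 0 := by
  rw [IsScalarTower.algebraMap_apply F[X] (RatFunc F) K]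
  simpa using hq

theorem pheidas (p : ℕ) [hp : Fact p.Prime] [CharP F p] [CharP K p] [PerfectRing F p] :
    ∃ C : ℕ, ∀ r, 0 < r → C ≤ p ^ r → ∀ T u w : K, T ≠ 0 →
      T - algebraMap F[X] K X = u ^ p ^ r - u →
      T⁻¹ - (algebraMap F[X] K X)⁻¹ = w ^ p ^ r - w → IsIntegral F[X] T := by
  obtain ⟨D, hD⟩ := exists_der F K
  have hDt : D (algebraMap F[X] K X) = 1 := by rw [hD]; simp
  obtain ⟨ε, hε, hinf⟩ := infty_bound F K D hD
  obtain ⟨δ, hδ, h⟩ := exists_delta F[X] (RatFunc F) K D fun a => by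
    rw [hD]; exact isIntegral_algebraMap
  obtain ⟨S, h1, h2, h3, h4, h5⟩ := exists_places F[X] (RatFunc F) K
  set t := algebraMap F[X] K X with ht
  set E := algebraMap F[X] K δ • D with hE
  have hE4 := h4 E h
  let κ : RatFunc F := algebraMap F[X] _ (X * δ) / ε
  obtain ⟨C, hC⟩ : ∃ C : ℕ, vi F (κ ^ Module.finrank (RatFunc F) K) < exp (C : ℤ) := by
    refine ⟨(log (vi F (κ ^ Module.finrank (RatFunc F) K)) + 1).toNat, lt_exp_of_log_lt ?_⟩
    omega
  refine ⟨C + 2, fun r hr hN T u w hT e1 e2 => h3 _ fun v hv => ?_⟩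
  obtain ⟨π, hπ⟩ := h1 v hv
  have key : ∀ n : ℕ, ∀ k, k < r → ∀ g u w : K, g ^ p ^ k - t = u ^ p ^ r - u →
      g⁻¹ ^ p ^ k - t⁻¹ = w ^ p ^ r - w → 1 < v g → v g ≤ exp (n : ℤ) → False := by
    intro n
    induction n with
    | zero => exact fun k _ g u w _ _ a b => absurd a (not_lt.2 (by simpa using b))
    | succ n ih =>
      intro k hk g u w e1 e2 hg hn
      have hg0 : g ≠ 0 := by rintro rfl; simp at hg
      by_cases hDg : D g = 0
      · obtain ⟨g1, rfl⟩ := ker_der F K p D hDt g hDg
        rw [map_pow] at hg hn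
        have hg1 : 1 < v g1 := by
          by_contra hh
          exact absurd hg (not_lt.2 (pow_le_one₀ zero_le (not_lt.1 hh)))
        have hg2 : v g1 ≤ exp (n : ℤ) := by
          rw [← lt_mul_exp_iff_le exp_ne_zero, ← exp_add]
          exact (lt_self_pow₀ hg1 hp.out.one_lt).trans_le (by simpa using hn)
        rw [← pow_mul, ← pow_succ'] at e1
        rw [← inv_pow, ← pow_mul, ← pow_succ'] at e2
        rcases (Nat.succ_le_of_lt hk).lt_or_eq with hk1 | hk1
        · exact ih (k + 1) hk1 g1 u w e1 e2 hg1 hg2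
        · have hk2 : k + 1 = r := hk1
          rw [hk2] at e1 e2
          refine ih 0 hr g1 (u - g1) (w - g1⁻¹) ?_ ?_ hg1 hg2
          · rw [sub_pow_char_pow]; linear_combination e1
          · rw [sub_pow_char_pow]; linear_combination e2
      · have hz : IsIntegral F[X] (t * (E g / g)) := h3 _ fun v' hv' => by
          obtain ⟨π', hπ'⟩ := h1 v' hv'
          exact val_logder_le v' p π' hπ' E (hE4 v' hv') k r hk t g u w
            (h2 v' hv' _ isIntegral_algebraMap) e1 e2 hg0
        have hvt : v t ≤ 1 := h2 v hv _ isIntegral_algebraMap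
        have hp1 := val_der_pole v p π hπ E (hE4 v hv) k r hk t g u hvt e1 hg
        have hp2 : v (t * (E g / g)) ≤ exp (-C : ℤ) := by
          rw [mul_comm, ← div_le_iff₀ (zero_lt_one.trans hg), ← map_div₀] at hp1
          rw [map_mul]
          calc v t * v (E g / g) ≤ 1 * exp (2 - (p ^ r : ℕ) : ℤ) := by gcongr
            _ ≤ exp (-C : ℤ) := by rw [one_mul, exp_le_exp]; omega
        obtain ⟨I, hI, -, hI3⟩ := h5 v hv
        obtain ⟨a, ha, ha2⟩ := hI3 _ C hz hp2
        have hz0 : t * (E g / g) ≠ 0 := by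
          refine mul_ne_zero (t_ne_zero F K) (div_ne_zero ?_ hg0)
          rw [hE, Derivation.smul_apply, smul_eq_mul]
          exact mul_ne_zero (poly_ne_zero F K hδ) hDg
        have ha0 : a ≠ 0 := by
          rintro rfl
          rw [map_zero, eq_comm, Algebra.norm_eq_zero_iff] at ha2
          exact hz0 ha2
        have h6 := norm_deg F hI ha ha0
        have h7 : t * (E g / g) =
            algebraMap (RatFunc F) K κ * (algebraMap (RatFunc F) K ε * (D g / g)) := by
          have : algebraMap (RatFunc F) K ε ≠ 0 := by simpa using hε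
          rw [hE, Derivation.smul_apply, smul_eq_mul, map_div₀, ← IsScalarTower.algebraMap_apply,
            map_mul, ← ht]
          field_simp
        rw [ha2, h7, map_mul, Algebra.norm_algebraMap, map_mul] at h6
        refine absurd (h6.trans ?_) (not_le.2 hC)
        calc _ ≤ vi F (κ ^ Module.finrank (RatFunc F) K) * 1 := by gcongr; exact hinf g hg0
          _ = _ := mul_one _
  by_contra hlt
  refine key (log (v T)).toNat 0 hr T u w (by simpa using e1) (by simpa using e2) (not_le.1 hlt) ?_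
  exact le_exp_of_log_le (by omega)

theorem integral_of_pow (δ : F[X]) (hδ : δ ≠ 0) : ∃ k, ∀ x : K,
    IsIntegral F[X] (algebraMap F[X] K δ * x ^ k) → IsIntegral F[X] x := by
  obtain ⟨S, h1, h2, h3, -, h5⟩ := exists_places F[X] (RatFunc F) K
  obtain ⟨C, hC⟩ : ∃ C : ℕ,
      vi F (Algebra.norm (RatFunc F) (algebraMap F[X] K δ)) < exp (C : ℤ) := by
    refine ⟨(log (vi F (Algebra.norm (RatFunc F) (algebraMap F[X] K δ))) + 1).toNat,
      lt_exp_of_log_lt ?_⟩
    omega
  refine ⟨C, fun x hx => h3 _ fun v hv => ?_⟩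
  by_contra hlt
  have h6 := exp_one_le_of_one_lt (not_le.1 hlt)
  have h7 := h2 v hv _ hx
  rw [map_mul, map_pow] at h7
  have h8 : v (algebraMap F[X] K δ) ≤ exp (-C : ℤ) := by
    have h9 : v (algebraMap F[X] K δ) * exp (C : ℤ) ≤ 1 := by
      refine le_trans ?_ h7
      gcongr
      calc exp (C : ℤ) = exp 1 ^ C := by rw [← exp_nsmul]; simp
        _ ≤ v x ^ C := by gcongr
    rwa [exp_neg, ← one_div, le_div_iff₀ exp_pos]
  obtain ⟨I, hI, -, hI3⟩ := h5 v hv
  obtain ⟨a, ha, ha2⟩ := hI3 _ C isIntegral_algebraMap h8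
  have ha0 : a ≠ 0 := by
    rintro rfl
    rw [map_zero, eq_comm, Algebra.norm_eq_zero_iff] at ha2
    exact poly_ne_zero F K hδ ha2
  have h10 := norm_deg F hI ha ha0
  rw [ha2] at h10
  exact absurd h10 (not_le.2 hC)

end Pool.Agent.MP_28f2cb_lc.H94
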