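import Pool.Agent.MP_28f2cb_lc.H94.Loc

/-
The places of a finite separable extension above a Dedekind domain, packaged without instances.
-/

namespace Pool.Agent.MP_28f2cb_lc.H94

open WithZero IsDedekindDomain

variable (A L K : Type*) [CommRing A] [IsDedekindDomain A] [Field L] [Field K] [Algebra A L]
  [IsFractionRing A L] [Algebra A K] [Algebra L K] [IsScalarTower A L K]
  [FiniteDimensional L K] [Algebra.IsSeparable L K]

include L in
theorem exists_gens : ∃ (n : ℕ) (ω : Fin n → K), (∀ i, IsIntegral A (ω i)) ∧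
    ∀ x, IsIntegral A x → ∃ a : Fin n → A, x = ∑ i, algebraMap A K (a i) * ω i := by
  have : Module.Finite A (integralClosure A K) := IsIntegralClosure.finite A L K _
  obtain ⟨n, s, hs⟩ := Module.Finite.exists_fin (R := A) (M := integralClosure A K)
  refine ⟨n, fun i => s i, fun i => (s i).2, fun x hx => ?_⟩
  have h : (⟨x, hx⟩ : integralClosure A K) ∈ Submodule.span A (Set.range s) := by
    rw [hs]; trivial
  obtain ⟨c, hc⟩ := (Submodule.mem_span_range_iff_exists_fun A).1 h
  refine ⟨c, ?_⟩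
  have := congrArg (Subalgebra.val _) hc
  simpa [Algebra.smul_def] using this.symm

include L in
theorem exists_denom {ι : Type*} [Finite ι] (f : ι → K) :
    ∃ δ : A, δ ≠ 0 ∧ ∀ i, IsIntegral A (algebraMap A K δ * f i) := by
  classical
  have := Fintype.ofFinite ι
  obtain ⟨y, hy, h⟩ := exists_integral_multiples A L (Finset.univ.image f)
  exact ⟨y, hy, fun i => by simpa [Algebra.smul_def] using h (f i) (by simp)⟩

include L in
theorem exists_delta (D : Derivation ℤ K K) (hD : ∀ a : A, IsIntegral A (D (algebraMap A K a))) :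
    ∃ δ : A, δ ≠ 0 ∧ ∀ x, IsIntegral A x → IsIntegral A (algebraMap A K δ * D x) := by
  obtain ⟨n, ω, hω, h⟩ := exists_gens A L K
  obtain ⟨δ, hδ, h2⟩ := exists_denom A L K fun i => D (ω i)
  refine ⟨δ, hδ, fun x hx => ?_⟩
  obtain ⟨a, rfl⟩ := h x hx
  rw [map_sum, Finset.mul_sum]
  refine IsIntegral.sum _ fun i _ => ?_
  rw [Derivation.leibniz, smul_eq_mul, smul_eq_mul, mul_add, mul_left_comm]
  exact (isIntegral_algebraMap.mul (h2 i)).add
    (isIntegral_algebraMap.mul ((hω i).mul (hD _)))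

theorem exists_places : ∃ S : Set (Valuation K ℤᵐ⁰),
    (∀ v ∈ S, ∃ π, v π = exp (-1 : ℤ)) ∧
    (∀ v ∈ S, ∀ x, IsIntegral A x → v x ≤ 1) ∧
    (∀ x, (∀ v ∈ S, v x ≤ 1) → IsIntegral A x) ∧
    (∀ E : Derivation ℤ K K, (∀ x, IsIntegral A x → IsIntegral A (E x)) →
      ∀ v ∈ S, ∀ x, v x ≤ 1 → v (E x) ≤ 1) ∧
    (∀ v ∈ S, ∃ I : Ideal A, I.IsMaximal ∧ (∀ a ∈ I, v (algebraMap A K a) < 1) ∧
      ∀ (z : K) (k : ℕ), IsIntegral A z → v z ≤ exp (-k : ℤ) →
        ∃ a ∈ I ^ k, algebraMap A L a = Algebra.norm L z) := by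
  let O := integralClosure A K
  have : IsDedekindDomain O := integralClosure.isDedekindDomain A L K
  have : IsFractionRing O K := IsIntegralClosure.isFractionRing_of_finite_extension A L K O
  have : Module.Finite A O := IsIntegralClosure.finite A L K _
  have : Module.IsTorsionFree A K := .trans_faithfulSMul A L K
  have : Module.IsTorsionFree A O := IsIntegralClosure.isTorsionFree A K
  have : IsLocalization (Algebra.algebraMapSubmonoid O (nonZeroDivisors A)) K :=
    IsIntegralClosure.isLocalization A L K O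
  refine ⟨Set.range fun P : HeightOneSpectrum O => P.valuation K, ?_, ?_, ?_, ?_, ?_⟩
  · rintro _ ⟨P, rfl⟩
    exact P.valuation_exists_uniformizer K
  · rintro _ ⟨P, rfl⟩ x hx
    exact P.valuation_le_one (K := K) ⟨x, hx⟩
  · intro x hx
    obtain ⟨y, hy⟩ := HeightOneSpectrum.mem_integers_of_valuation_le_one (R := O) K x
      fun P => hx _ ⟨P, rfl⟩
    rw [← hy]
    exact y.2
  · rintro E hE _ ⟨P, rfl⟩ x hx
    exact der_local E (fun a => ⟨⟨_, hE _ a.2⟩, rfl⟩) P x hx
  · rintro _ ⟨P, rfl⟩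
    have := P.isMaximal
    refine ⟨P.asIdeal.comap (algebraMap A O),
      Ideal.isMaximal_comap_of_isIntegral_of_isMaximal _, fun a ha => ?_, fun z k hz hv => ?_⟩
    · rw [IsScalarTower.algebraMap_apply A O K]
      exact (P.valuation_lt_one_iff_mem (K := K) _).2 ha
    · have h1 : (⟨z, hz⟩ : O) ∈ P.asIdeal ^ k := by
        rw [← P.intValuation_le_pow_iff_mem, ← P.valuation_of_algebraMap (K := K)]
        exact hv
      have h2 := Ideal.intNorm_mem_spanNorm A h1
      rw [Ideal.spanNorm_eq, map_pow] at h2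
      refine ⟨_, Ideal.pow_right_mono (Ideal.relNorm_le_comap A P.asIdeal) k h2, ?_⟩
      exact Algebra.algebraMap_intNorm (L := K) _

end Pool.Agent.MP_28f2cb_lc.H94
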