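import Pool.Agent.MP_28f2cb_lc.H94.Main

/-
Reduction of a finite extension of F(t) to a separable one.
-/

namespace Pool.Agent.MP_28f2cb_lc.H94

open Polynomial

theorem sep_of_not_pow (F K : Type*) [Field F] [Field K] [Algebra F[X] K] [Algebra (RatFunc F) K]
    [IsScalarTower F[X] (RatFunc F) K] [FiniteDimensional (RatFunc F) K]
    (p : ℕ) [hp : Fact p.Prime] [CharP F p] [CharP K p] [PerfectRing F p]
    (h : ∀ x : K, x ^ p ≠ algebraMap F[X] K X) : Algebra.IsSeparable (RatFunc F) K := by
  let E := separableClosure (RatFunc F) K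
  have : CharP E p := charP_of_injective_algebraMap (algebraMap (RatFunc F) E).injective p
  obtain ⟨D, hD⟩ := exists_der F E
  have hDt : D (algebraMap F[X] E X) = 1 := by rw [hD]; simp
  have key : ∀ x : K, x ^ p ∈ E → x ∈ E := by
    intro x hx
    let a : E := ⟨x ^ p, hx⟩
    by_cases hDa : D a = 0
    · obtain ⟨b, hb⟩ := ker_der F E p D hDt a hDa
      have h1 : x ^ p = (b : K) ^ p := congrArg Subtype.val hb
      rw [frobenius_inj K p h1]
      exact b.2
    exfalso
    let R := (frobenius E p).fieldRange
    let φ : E → degreeLT R p →ₗ[R] E := fun y =>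
      (aeval y : R[X] →ₐ[R] E).toLinearMap ∘ₗ (degreeLT R p).subtype
    have : Module.Finite R (degreeLT R p) := Module.Finite.equiv (degreeLTEquiv R p).symm
    have h1 : Function.Surjective (φ (algebraMap F[X] E X)) := by
      intro g
      obtain ⟨f, hf, hf2⟩ := span_pow F E p g
      exact ⟨⟨f, mem_degreeLT.2 (degree_le_natDegree.trans_lt (by exact_mod_cast hf))⟩, hf2⟩
    have h2 : Function.Injective (φ a) := by
      rw [injective_iff_map_eq_zero]
      rintro ⟨f, hf⟩ h0
      have h3 : aeval a f = 0 := h0
      have h4 : f.natDegree < p := by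
        rcases eq_or_ne f 0 with rfl | hf0
        · simpa using hp.out.pos
        · exact (natDegree_lt_iff_degree_lt hf0).2 (mem_degreeLT.1 hf)
      obtain ⟨c, rfl⟩ := const_of_der p ((D a)⁻¹ • D) (der_range p _) a
        (by rw [Derivation.smul_apply, smul_eq_mul, inv_mul_cancel₀ hDa]) _ h4 f le_rfl
        (by rw [h3, map_zero])
      rw [aeval_C, map_eq_zero] at h3
      exact Subtype.ext (by simp [h3])
    have : Module.Finite R E := Module.Finite.of_surjective _ h1
    have h5 : Function.Surjective (φ a) :=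
      (LinearMap.injective_iff_surjective_of_finrank_eq_finrank
        (le_antisymm (LinearMap.finrank_le_finrank_of_injective h2)
          (LinearMap.finrank_le_finrank_of_surjective h1))).1 h2
    have h6 : ∀ f : R[X], ∃ z : K, z ^ p = ((aeval a f : E) : K) := by
      intro f
      induction f using Polynomial.induction_on' with
      | add f g hf hg =>
        obtain ⟨y, hy⟩ := hf
        obtain ⟨z, hz⟩ := hg
        exact ⟨y + z, by rw [add_pow_char, hy, hz, map_add]; rfl⟩
      | monomial n c =>
        obtain ⟨_, c, rfl⟩ := c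
        refine ⟨c * x ^ n, ?_⟩
        rw [aeval_monomial, mul_pow, ← pow_mul, mul_comm n, pow_mul]
        rfl
    obtain ⟨f, hf⟩ := h5 (algebraMap F[X] E X)
    obtain ⟨z, hz⟩ := h6 f
    exact h z (hz.trans (congrArg Subtype.val hf))
  rw [← separableClosure.eq_top_iff, eq_top_iff]
  intro x _
  obtain ⟨n, y, hy⟩ := IsPurelyInseparable.pow_mem E p x
  have h1 : x ^ p ^ n ∈ E := hy ▸ y.2
  clear hy
  induction n with
  | zero => simpa using h1
  | succ n ih => exact ih (key _ (by rwa [← pow_mul, ← pow_succ]))

/-- a copy of a field without its algebra structures. -/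
def Tw (K : Type*) : Type _ := K

instance (K : Type*) [Field K] : Field (Tw K) := inferInstanceAs (Field K)

theorem dp_all (F K : Type*) [Field F] [Field K] [Algebra F[X] K] [Algebra (RatFunc F) K]
    [IsScalarTower F[X] (RatFunc F) K] [FiniteDimensional (RatFunc F) K]
    (p : ℕ) [hp : Fact p.Prime] [Algebra (ZMod p) F] [Algebra.IsAlgebraic (ZMod p) F] :
    Dp (algebraMap F[X] K X) Unit fun x => IsIntegral F[X] (x ()) := by
  classical
  have : CharP F p := charP_of_injective_ringHom (algebraMap (ZMod p) F).injective p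
  have : CharP K p := charP_of_injective_algebraMap (algebraMap (RatFunc F) K).injective p
  have : PerfectField F := Algebra.IsAlgebraic.perfectField (ZMod p)
  set t := algebraMap F[X] K X with ht
  have hex : ∃ k, ¬∃ s : K, s ^ p ^ (k + 1) = t := by
    refine ⟨Module.finrank (RatFunc F) K, ?_⟩
    rintro ⟨s, hs⟩
    have h1 := le_finrank_of_pow F K hs
    have h2 : Module.finrank (RatFunc F) K + 1 < p ^ (Module.finrank (RatFunc F) K + 1) :=
      Nat.lt_pow_self hp.out.one_lt
    omega
  obtain ⟨k, s, hs, hs2⟩ : ∃ k, ∃ s : K, s ^ p ^ k = t ∧ ∀ z : K, z ^ p ≠ s := by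
    have h1 := Nat.find_spec hex
    obtain ⟨s, hs⟩ : ∃ s : K, s ^ p ^ Nat.find hex = t := by
      rcases h0 : Nat.find hex with _ | k
      · exact ⟨t, by simp⟩
      · exact not_not.1 (Nat.find_min hex (m := k) (by omega))
    refine ⟨_, s, hs, ?_⟩
    rintro z rfl
    exact h1 ⟨z, by rw [pow_succ', pow_mul, hs]⟩
  let c : F →+* K := (algebraMap F[X] K).comp C
  let φ : F[X] →+* K := eval₂RingHom c s
  have hφ : ∀ f : F[X], φ (expand F (p ^ k) f) = algebraMap F[X] K f := by
    intro f
    induction f using Polynomial.induction_on' with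
    | add f g hf hg => rw [map_add, map_add, hf, hg, map_add]
    | monomial n a =>
      rw [← C_mul_X_pow_eq_monomial]
      have h1 : φ X = s := by simp [φ]
      have h2 : φ (C a) = algebraMap F[X] K (C a) := by simp [φ, c]
      rw [map_mul, map_pow, expand_C, expand_X, map_mul, map_pow, map_pow, h1, h2, hs, map_mul,
        map_pow]
  have hinj : Function.Injective φ := by
    rw [injective_iff_map_eq_zero]
    intro f hf
    have h1 := hφ (f.map (iterateFrobenius F p k))
    rw [← map_expand, map_iterateFrobenius_expand, map_pow, hf,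
      zero_pow (pow_ne_zero _ hp.out.ne_zero)] at h1
    by_contra h0
    exact poly_ne_zero F K (Polynomial.map_ne_zero h0) h1.symm
  let ψ : RatFunc F →+* K := IsFractionRing.lift hinj
  have hψ : ∀ f, ψ (algebraMap F[X] (RatFunc F) f) = φ f := IsFractionRing.lift_algebraMap hinj
  let : Algebra F[X] (Tw K) := RingHom.toAlgebra (S := Tw K) φ
  let : Algebra (RatFunc F) (Tw K) := RingHom.toAlgebra (S := Tw K) ψ
  have : IsScalarTower F[X] (RatFunc F) (Tw K) :=
    IsScalarTower.of_algebraMap_eq fun f => (hψ f).symm
  have hrange : ∀ r : RatFunc F, ∃ r', ψ r' = algebraMap (RatFunc F) K r := by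
    intro r
    induction r using RatFunc.induction_on with
    | f a b hb =>
      refine ⟨algebraMap F[X] _ (expand F (p ^ k) a) / algebraMap F[X] _ (expand F (p ^ k) b), ?_⟩
      rw [map_div₀, map_div₀, hψ, hψ, hφ, hφ, ← IsScalarTower.algebraMap_apply,
        ← IsScalarTower.algebraMap_apply]
  have : FiniteDimensional (RatFunc F) (Tw K) := by
    obtain ⟨n, e, he⟩ := Module.Finite.exists_fin (R := RatFunc F) (M := K)
    let e' : Fin n → Tw K := e
    refine ⟨Submodule.fg_def.2 ⟨Set.range e', Set.finite_range _, ?_⟩⟩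
    rw [eq_top_iff]
    intro x _
    let x' : K := x
    have h1 : x' ∈ Submodule.span (RatFunc F) (Set.range e) := by rw [he]; trivial
    obtain ⟨a, ha⟩ := (Submodule.mem_span_range_iff_exists_fun _).1 h1
    choose a' ha' using fun i => hrange (a i)
    have h2 : ∑ i, ψ (a' i) * e i = x' := by
      rw [← ha]
      exact Finset.sum_congr rfl fun i _ => by rw [Algebra.smul_def, ha']
    exact (Submodule.mem_span_range_iff_exists_fun (RatFunc F) (v := e')).2 ⟨a', h2⟩
  have hX : algebraMap F[X] (Tw K) X = s := by
    show φ X = s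
    simp [φ]
  have : CharP (Tw K) p := inferInstanceAs (CharP K p)
  have : Algebra.IsSeparable (RatFunc F) (Tw K) :=
    sep_of_not_pow F (Tw K) p fun x => by rw [hX]; exact hs2 x
  have h1 := dp_sep F (Tw K) p
  rw [hX] at h1
  obtain ⟨q, hq⟩ := aniso F K
  have hsi : IsIntegral F[X] s := by
    refine IsIntegral.of_pow (pow_pos hp.out.pos k) ?_
    rw [hs]
    exact isIntegral_algebraMap
  have hφi : ∀ f, IsIntegral F[X] (φ f) := by
    intro f
    induction f using Polynomial.induction_on' with
    | add f g hf hg => rw [map_add]; exact hf.add hg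
    | monomial n a =>
      rw [← C_mul_X_pow_eq_monomial, map_mul, map_pow]
      refine IsIntegral.mul ?_ (IsIntegral.pow ?_ _)
      · simpa [φ, c] using isIntegral_algebraMap
      · simpa [φ] using hsi
  have h2 : Dp s Unit fun x : Unit → K => IsIntegral F[X] (x ()) := by
    refine Dp.congr (K := K) h1 fun x => ⟨?_, ?_⟩
    · rintro ⟨f, hf, hf2⟩
      refine ⟨f.map (expand F (p ^ k)).toRingHom, hf.map _, ?_⟩
      show eval₂ φ (x ()) _ = 0
      rw [eval₂_map, ← hf2]
      congr 1
      exact RingHom.ext hφ
    · rintro ⟨f, hf, hf2⟩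
      refine integral_of_root (f.map φ) (hf.map _) (fun i => ?_) ?_
      · rw [coeff_map]; exact hφi _
      · rw [eval_map]; exact hf2
  refine Dp.repar hq (m := p ^ k) (fun z => ⟨fun hz => ?_, fun hz => hz ▸ hs⟩) h2
  exact (iterateFrobenius K p k).injective (hz.trans hs.symm)

end Pool.Agent.MP_28f2cb_lc.H94
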