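import Pool.Agent.MP_28f2cb_lc.H94.Pheidas

/-
Wound equations in a function field: solutions have bounded denominators
(the case of the rational function field is due to helper49).
-/

namespace Pool.Agent.MP_28f2cb_lc.H94

open Polynomial Finset

theorem lemmaA {F : Type*} [Field F] (p : ℕ) [hp : Fact p.Prime] [CharP F p] (r : ℕ)
    (W : ℕ → F[X]) (π : F[X]) (hπ : Irreducible π)
    (h : π ^ (p ^ r - 1) ∣ ∑ j ∈ range (p ^ r - 1), X ^ j * W j ^ p ^ r) :
    ∀ j < p ^ r - 1, π ∣ W j := by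
  have : Fact (Irreducible π) := ⟨hπ⟩
  let E := AdjoinRoot π
  have : CharP E p := charP_of_injective_algebraMap (algebraMap F E).injective p
  let α : E := AdjoinRoot.root π
  let φ : F[X] →+* E[X] := mapRingHom (algebraMap F E)
  set N := p ^ r with hN
  have hN1 : 1 ≤ N := Nat.one_le_pow _ _ hp.out.pos
  have h0 : X - C α ∣ φ π := by
    rw [dvd_iff_isRoot]
    exact AdjoinRoot.isRoot_root π
  have h1 : (X - C α) ^ (N - 1) ∣ ∑ j ∈ range (N - 1), X ^ j * φ (W j) ^ N := by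
    have := (pow_dvd_pow_of_dvd h0 (N - 1)).trans (by simpa using map_dvd φ h : φ π ^ (N - 1) ∣ _)
    simpa [φ] using this
  let c : ℕ → E := fun j => (φ (W j)).eval α
  have h2 : ∀ j, (X - C α) ^ (N - 1) ∣ φ (W j) ^ N - C (c j ^ N) := by
    intro j
    rw [C_pow, hN, ← sub_pow_char_pow]
    exact (pow_dvd_pow _ (by omega)).trans (pow_dvd_pow_of_dvd (X_sub_C_dvd_sub_C_eval) _)
  have h3 : (X - C α) ^ (N - 1) ∣ ∑ j ∈ range (N - 1), C (c j ^ N) * X ^ j := by
    have h4 : (X - C α) ^ (N - 1) ∣ ∑ j ∈ range (N - 1), X ^ j * (φ (W j) ^ N - C (c j ^ N)) :=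
      dvd_sum fun j _ => (h2 j).mul_left _
    have := dvd_sub h1 h4
    rw [← sum_sub_distrib] at this
    convert this using 2
    ring
  have h5 : ∑ j ∈ range (N - 1), C (c j ^ N) * X ^ j = 0 := by
    refine eq_zero_of_dvd_of_degree_lt h3 ?_
    rw [degree_pow, degree_X_sub_C, nsmul_one]
    refine (degree_sum_le _ _).trans_lt ?_
    rw [Finset.sup_lt_iff (WithBot.bot_lt_coe _)]
    intro j hj
    refine (degree_C_mul_X_pow_le _ _).trans_lt ?_
    exact_mod_cast mem_range.1 hj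
  intro j hj
  have h6 := congrArg (fun f => f.coeff j) h5
  simp only [finsetSum_coeff, coeff_C_mul_X_pow, coeff_zero, sum_ite_eq, mem_range, hj,
    if_true] at h6
  have h7 : c j = 0 := pow_eq_zero_iff (by omega) |>.1 h6
  rw [← AdjoinRoot.mk_eq_zero, ← AdjoinRoot.aeval_eq, ← h7]
  simp only [c, φ, α, coe_mapRingHom, eval_map_algebraMap]

theorem coord_step {F : Type*} [Field F] (p : ℕ) [hp : Fact p.Prime] [CharP F p] (r : ℕ)
    (hr : 2 ≤ p ^ r) (W : ℕ → F[X]) (π η Q R : F[X]) (hη : η ≠ 0) (hπ : Irreducible π)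
    [DecidableEq F] (hd : π * EuclideanDomain.gcd Q η ∣ Q)
    (h : η * ∑ j ∈ range (p ^ r - 1), X ^ j * W j ^ p ^ r = Q ^ (p ^ r - 1) * R) :
    ∀ j < p ^ r - 1, π ∣ W j := by
  refine lemmaA p r W π hπ ?_
  set g := EuclideanDomain.gcd Q η with hg
  obtain ⟨Q', hQ⟩ := hd
  obtain ⟨η', hη'⟩ := EuclideanDomain.gcd_dvd_right Q η
  rw [← hg] at hη'
  have hg0 : g ≠ 0 := fun h0 => hη (by rw [hη', h0, zero_mul])
  have hnd : ¬π ∣ η' := by
    rintro ⟨c, hc⟩
    have h1 : π * g ∣ g := by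
      rw [hg]
      refine EuclideanDomain.dvd_gcd ⟨Q', hQ⟩ ⟨c, ?_⟩
      rw [← hg]
      linear_combination hη' + g * hc
    have h2 : π * g ∣ 1 * g := by simpa using h1
    exact hπ.not_isUnit (isUnit_of_dvd_one ((mul_dvd_mul_iff_right hg0).1 h2))
  obtain ⟨M, hM⟩ : ∃ M, p ^ r - 1 = M + 1 := ⟨p ^ r - 2, by omega⟩
  refine hπ.prime.pow_dvd_of_dvd_mul_left _ hnd ⟨g ^ M * Q' ^ (p ^ r - 1) * R, ?_⟩
  refine mul_left_cancel₀ hg0 ?_
  rw [← mul_assoc, ← hη', h]
  conv_lhs => rw [hQ]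
  generalize (∑ j ∈ range (p ^ r - 1), X ^ j * W j ^ p ^ r) = z
  rw [hM]
  ring

variable (F K : Type*) [Field F] [Field K] [Algebra F[X] K] [Algebra (RatFunc F) K]
  [IsScalarTower F[X] (RatFunc F) K] [FiniteDimensional (RatFunc F) K]
  [Algebra.IsSeparable (RatFunc F) K]

theorem lemmaB (p : ℕ) [hp : Fact p.Prime] [CharP F p] [CharP K p] (r : ℕ) (hr : 2 ≤ p ^ r) :
    ∃ δ : F[X], δ ≠ 0 ∧ ∀ (ε : F[X]) (w A : ℕ → K) (B : K), ε ≠ 0 →
      IsIntegral F[X] (algebraMap F[X] K ε * B) → (∀ j, IsIntegral F[X] (A j)) →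
      ∑ j ∈ range (p ^ r - 1), algebraMap F[X] K X ^ j * w j ^ p ^ r =
        B + ∑ j ∈ range (p ^ r - 1), A j * w j →
      ∀ j < p ^ r - 1, IsIntegral F[X] (algebraMap F[X] K (δ * ε) * w j) := by
  classical
  obtain ⟨s, e, he⟩ := FiniteDimensional.exists_is_basis_integral F[X] (RatFunc F) K
  let e' := e.mapPowExpCharPowOfIsSeparable p r
  have he' : ∀ i, e' i = e i ^ p ^ r := fun i => by
    simp [e', Module.Basis.mapPowExpCharPowOfIsSeparable]
  obtain ⟨n, ω, -, hω⟩ := exists_gens F[X] (RatFunc F) K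
  obtain ⟨⟨δ, hδ⟩, hδ2⟩ := IsLocalization.exist_integer_multiples_of_finite
    (nonZeroDivisors F[X]) (S := RatFunc F) fun il : s × Fin n => e'.repr (ω il.2) il.1
  have hδ0 : δ ≠ 0 := nonZeroDivisors.ne_zero hδ
  have hsm : ∀ (q : F[X]) (x : K) i, e'.repr (algebraMap F[X] K q * x) i =
      algebraMap F[X] (RatFunc F) q * e'.repr x i := fun q x i => by
    rw [IsScalarTower.algebraMap_apply F[X] (RatFunc F) K, ← Algebra.smul_def, map_smul,
      Finsupp.smul_apply, smul_eq_mul]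
  have hc : ∀ x, IsIntegral F[X] x → ∀ i, ∃ q : F[X],
      algebraMap F[X] (RatFunc F) q = algebraMap F[X] (RatFunc F) δ * e'.repr x i := by
    intro x hx i
    obtain ⟨a, rfl⟩ := hω x hx
    choose q hq using fun l => hδ2 (i, l)
    refine ⟨∑ l, a l * q l, ?_⟩
    simp only [map_sum, map_mul, Finsupp.finsetSum_apply, mul_sum, hq]
    refine sum_congr rfl fun l _ => ?_
    rw [hsm, Algebra.smul_def]
    ring
  refine ⟨δ, hδ0, fun ε w A B hε hB hA heq => ?_⟩
  set N := p ^ r with hN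
  let ι := algebraMap F[X] (RatFunc F)
  let Pq : F[X] → Prop := fun Q => ∀ j < N - 1, ∀ i, ∃ q, ι q = ι Q * e.repr (w j) i
  have hint : ∀ Q, Pq Q → ∀ j < N - 1, IsIntegral F[X] (algebraMap F[X] K Q * w j) := by
    intro Q hQ j hj
    choose q hq using hQ j hj
    rw [← e.sum_repr (w j), mul_sum]
    refine IsIntegral.sum _ fun i _ => ?_
    rw [Algebra.smul_def, IsScalarTower.algebraMap_apply F[X] (RatFunc F) K, ← mul_assoc,
      ← map_mul, ← hq, ← IsScalarTower.algebraMap_apply]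
    exact isIntegral_algebraMap.mul (he i)
  have key : ∀ m, ∀ Q : F[X], Q ≠ 0 → Q.natDegree ≤ m → Pq Q → Pq (δ * ε) := by
    intro m
    induction m using Nat.strong_induction_on with
    | _ m ih =>
    intro Q hQ0 hQm hQ
    by_cases hdv : Q ∣ δ * ε
    · obtain ⟨c, hc'⟩ := hdv
      intro j hj i
      obtain ⟨q, hq⟩ := hQ j hj i
      exact ⟨q * c, by rw [hc', map_mul, map_mul, hq]; ring⟩
    obtain ⟨Q', hQ'⟩ := EuclideanDomain.gcd_dvd_left Q (δ * ε)
    have hQ'0 : Q' ≠ 0 := by rintro rfl; exact hQ0 (by simpa using hQ')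
    have hQ'u : ¬IsUnit Q' := fun hu => hdv (by
      rw [hQ', hu.mul_right_dvd]
      exact EuclideanDomain.gcd_dvd_right _ _)
    obtain ⟨π, hπ, c, hc'⟩ := WfDvdMonoid.exists_irreducible_factor hQ'u hQ'0
    have hd : π * EuclideanDomain.gcd Q (δ * ε) ∣ Q :=
      ⟨c, by linear_combination hQ' + EuclideanDomain.gcd Q (δ * ε) * hc'⟩
    have hW : ∀ j i, ∃ q, j < N - 1 → ι q = ι Q * e.repr (w j) i := fun j i => by
      by_cases hj : j < N - 1
      · exact (hQ j hj i).imp fun _ h _ => h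
      · exact ⟨0, fun h => absurd h hj⟩
    choose W hW using hW
    let Z : K := algebraMap F[X] K Q * (algebraMap F[X] K ε * B) +
      ∑ j ∈ range (N - 1), algebraMap F[X] K ε * A j * (algebraMap F[X] K Q * w j)
    have hZ : IsIntegral F[X] Z :=
      (isIntegral_algebraMap.mul hB).add (IsIntegral.sum _ fun j hj =>
        (isIntegral_algebraMap.mul (hA j)).mul (hint Q hQ j (mem_range.1 hj)))
    have hZ2 : Z = algebraMap F[X] K (Q * ε) *
        ∑ j ∈ range (N - 1), algebraMap F[X] K X ^ j * w j ^ N := by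
      rw [heq, map_mul, mul_add, mul_sum]
      exact congrArg₂ (· + ·) (by ring) (sum_congr rfl fun j _ => by ring)
    have hrep : ∀ x i, e'.repr (x ^ N) i = e.repr x i ^ N := by
      intro x i
      have h1 : x ^ N = ∑ i, (e.repr x i ^ N) • e' i := by
        conv_lhs => rw [← e.sum_repr x, hN, sum_pow_char_pow]
        exact sum_congr rfl fun i _ => by rw [_root_.smul_pow, he']
      rw [h1, e'.repr_sum_self]
    have hdiv : ∀ i, ∀ j < N - 1, π ∣ W j i := by
      intro i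
      obtain ⟨R, hR⟩ := hc Z hZ i
      refine coord_step p r hr (fun j => W j i) π (δ * ε) Q R (mul_ne_zero hδ0 hε) hπ hd ?_
      apply IsFractionRing.injective F[X] (RatFunc F)
      rw [map_mul _ (Q ^ _), hR, hZ2, hsm, map_sum e'.repr,
        Finsupp.finsetSum_apply, map_mul, map_sum, mul_sum, mul_sum, mul_sum, mul_sum]
      refine sum_congr rfl fun j hj => ?_
      rw [← map_pow (algebraMap F[X] K), hsm, hrep]
      have h1 := hW j i (mem_range.1 hj)
      obtain ⟨M, hM⟩ : ∃ M, N = M + 1 := ⟨N - 1, by omega⟩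
      simp only [map_mul, map_pow, ← hN, ι] at h1 ⊢
      rw [h1, hM, Nat.add_sub_cancel]
      ring
    obtain ⟨Q1, hQ1⟩ : π ∣ Q := (Dvd.intro _ rfl).trans hd
    have hQ10 : Q1 ≠ 0 := by rintro rfl; exact hQ0 (by simpa using hQ1)
    have hlt : Q1.natDegree < m := by
      have h1 := congrArg natDegree hQ1
      rw [natDegree_mul hπ.ne_zero hQ10] at h1
      have := hπ.natDegree_pos
      omega
    refine ih _ hlt Q1 hQ10 le_rfl fun j hj i => ?_
    obtain ⟨q, hq⟩ := hdiv i j hj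
    refine ⟨q, mul_left_cancel₀ (a := ι π) (by simpa [ι] using hπ.ne_zero) ?_⟩
    rw [← map_mul, ← hq, hW j i hj, hQ1, map_mul, mul_assoc]
  obtain ⟨⟨Q, hQ⟩, hQ2⟩ := IsLocalization.exist_integer_multiples_of_finite
    (nonZeroDivisors F[X]) (S := RatFunc F) fun ji : Fin (N - 1) × s => e.repr (w ji.1) ji.2
  refine hint _ (key _ Q (nonZeroDivisors.ne_zero hQ) le_rfl fun j hj i => ?_)
  obtain ⟨q, hq⟩ := hQ2 (⟨j, hj⟩, i)
  exact ⟨q, by rw [hq, Algebra.smul_def]⟩

end Pool.Agent.MP_28f2cb_lc.H94
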